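import Mathlib

/-!
# Large independent sets in sparse relations
-/

set_option autoImplicit false

open Finset

namespace Pool.Agent.H12.TT

variable {V : Type*} [DecidableEq V]

/-- A maximal independent subset dominates. -/
theorem exists_max_indep (S : Finset V) (R : V → V → Prop) (D : ℕ)
    (hD : ∀ x ∈ S, ∃ N : Finset V, N.card ≤ D ∧ ∀ y ∈ S, x ≠ y → R x y ∨ R y x → y ∈ N) :
    ∃ A ⊆ S, S.card ≤ (D + 1) * A.card ∧ ∀ x ∈ A, ∀ y ∈ A, x ≠ y → ¬ R x y := by
  classical
  let F : Finset (Finset V) := S.powerset.filter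
    (fun A => ∀ x ∈ A, ∀ y ∈ A, x ≠ y → ¬ R x y)
  have hF : F.Nonempty := ⟨∅, by simp [F]⟩
  obtain ⟨A, hAF, hmax⟩ := F.exists_max_image card hF
  simp only [F, mem_filter, mem_powerset] at hAF
  obtain ⟨hAS, hA⟩ := hAF
  refine ⟨A, hAS, ?_, hA⟩
  have h1 : ∀ x : V, ∃ N : Finset V, N.card ≤ D ∧ (x ∈ S → ∀ y ∈ S, x ≠ y →
      R x y ∨ R y x → y ∈ N) := by
    intro x
    by_cases hx : x ∈ S
    · obtain ⟨N, h1, h2⟩ := hD x hx
      exact ⟨N, h1, fun _ => h2⟩
    · exact ⟨∅, by simp, fun h => absurd h hx⟩
  choose N hN1 hN2 using h1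
  have h2 : S ⊆ A.biUnion (fun a => insert a (N a)) := by
    intro v hv
    by_contra hcon
    rw [mem_biUnion] at hcon
    push Not at hcon
    have hvA : v ∉ A := fun h => hcon v h (mem_insert_self _ _)
    have hind : ∀ a ∈ A, ¬ R a v ∧ ¬ R v a := by
      intro a ha
      have hav : a ≠ v := by
        rintro rfl
        exact hvA ha
      by_contra h
      apply hcon a ha
      refine mem_insert_of_mem (hN2 a (hAS ha) v hv hav ?_)
      tauto
    have hins : insert v A ∈ F := by
      simp only [F, mem_filter, mem_powerset]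
      refine ⟨insert_subset hv hAS, ?_⟩
      intro x hx y hy hxy
      rw [mem_insert] at hx hy
      rcases hx with rfl | hx
      · rcases hy with rfl | hy
        · exact absurd rfl hxy
        · exact (hind y hy).2
      · rcases hy with rfl | hy
        · exact (hind x hx).1
        · exact hA x hx y hy hxy
    have := hmax _ hins
    rw [card_insert_of_notMem hvA] at this
    omega
  refine (card_le_card h2).trans (card_biUnion_le.trans ?_)
  refine (sum_le_sum (g := fun _ => D + 1) fun a _ => ?_).trans ?_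
  · exact (card_insert_le _ _).trans (by have := hN1 a; omega)
  · rw [sum_const, smul_eq_mul, mul_comm]

/-- A sparse relation has a large independent set. -/
theorem exists_indep (S : Finset V) (R : V → V → Prop) [DecidableRel R] (M : ℕ)
    (hE : ((S ×ˢ S).filter (fun w => w.1 ≠ w.2 ∧ R w.1 w.2)).card ≤ M * S.card) :
    ∃ A ⊆ S, S.card ≤ 2 * (4 * M + 1) * A.card ∧ ∀ x ∈ A, ∀ y ∈ A, x ≠ y → ¬ R x y := by
  classical
  let N : V → Finset V := fun x => S.filter (fun y => x ≠ y ∧ (R x y ∨ R y x))
  let L : Finset V := S.filter (fun x => (N x).card ≤ 4 * M)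
  let H : Finset V := S.filter (fun x => ¬ (N x).card ≤ 4 * M)
  have hLH : L.card + H.card = S.card := card_filter_add_card_filter_not _
  have hsum : ∑ x ∈ S, (N x).card ≤ 2 * (M * S.card) := by
    have h1 : ∀ x ∈ S, (N x).card ≤ (S.filter (fun y => x ≠ y ∧ R x y)).card +
        (S.filter (fun y => y ≠ x ∧ R y x)).card := by
      intro x _
      refine (card_le_card ?_).trans (card_union_le _ _)
      intro y hy
      simp only [N, mem_filter, mem_union] at hy ⊢
      obtain ⟨h1, h2, h3⟩ := hy
      rcases h3 with h3 | h3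
      · exact Or.inl ⟨h1, h2, h3⟩
      · exact Or.inr ⟨h1, h2.symm, h3⟩
    refine (sum_le_sum h1).trans ?_
    rw [sum_add_distrib]
    have e1 : ∑ x ∈ S, (S.filter (fun y => x ≠ y ∧ R x y)).card =
        ((S ×ˢ S).filter (fun w => w.1 ≠ w.2 ∧ R w.1 w.2)).card := by
      rw [card_filter, sum_product]
      refine sum_congr rfl fun x _ => ?_
      rw [card_filter]
    have e2 : ∑ x ∈ S, (S.filter (fun y => y ≠ x ∧ R y x)).card =
        ((S ×ˢ S).filter (fun w => w.1 ≠ w.2 ∧ R w.1 w.2)).card := by
      rw [card_filter, sum_product_right]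
      refine sum_congr rfl fun x _ => ?_
      rw [card_filter]
    omega
  have hH : (4 * M + 1) * H.card ≤ 2 * (M * S.card) := by
    refine le_trans ?_ hsum
    have h1 : (4 * M + 1) * H.card = ∑ x ∈ H, (4 * M + 1) := by
      rw [sum_const, smul_eq_mul, mul_comm]
    rw [h1]
    refine (sum_le_sum (g := fun x => (N x).card) fun x hx => ?_).trans
      (sum_le_sum_of_subset (filter_subset _ _))
    have := (mem_filter.1 hx).2
    omega
  have hH2 : 2 * H.card ≤ S.card := by
    rcases Nat.eq_zero_or_pos M with h0 | h0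
    · subst h0
      simp only [mul_zero, zero_add, one_mul, zero_mul] at hH
      omega
    · have : (4 * M) * H.card ≤ 2 * (M * S.card) :=
        (Nat.mul_le_mul_right _ (by omega)).trans hH
      have h3 : M * (2 * (2 * H.card)) ≤ M * (2 * S.card) := by
        calc M * (2 * (2 * H.card)) = (4 * M) * H.card := by ring
          _ ≤ 2 * (M * S.card) := this
          _ = M * (2 * S.card) := by ring
      have := Nat.le_of_mul_le_mul_left h3 h0
      omega
  obtain ⟨A, hA1, hA2, hA3⟩ := exists_max_indep L R (4 * M) (by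
    intro x hx
    refine ⟨N x, (mem_filter.1 hx).2, ?_⟩
    intro y hy hxy h
    simp only [N, mem_filter]
    exact ⟨(mem_filter.1 hy).1, hxy, h⟩)
  refine ⟨A, hA1.trans (filter_subset _ _), ?_, hA3⟩
  have : 2 * (4 * M + 1) * A.card = 2 * ((4 * M + 1) * A.card) := by ring
  omega

end Pool.Agent.H12.TT
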