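import Pool.Agent.H12.TT.Box
import Pool.Agent.H12.TT.Ind

/-!
# Averaging over the affine images
-/

set_option autoImplicit false

open Polynomial Finset

namespace Pool.Agent.H12.TT

variable {p : ℕ} [Fact p.Prime]

theorem card_shift (T : Finset (ZMod p × ZMod p)) (u v : ZMod p) :
    ((univ : Finset (ZMod p × ZMod p)).filter (fun w => (u + w.1, v + w.2) ∈ T)).card =
      T.card := by
  refine card_nbij' (fun w => (u + w.1, v + w.2)) (fun w => (w.1 - u, w.2 - v)) ?_ ?_ ?_ ?_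
  · intro w hw
    simpa using hw
  · intro w hw
    simpa using hw
  · intro w _
    simp
  · intro w _
    simp

/-- The points of the curve in the translate of `T`. -/
noncomputable def PT (P : (ZMod p)[X]) (T : Finset (ZMod p × ZMod p))
    (q : ZMod p × ZMod p × ZMod p) : Finset (ZMod p) :=
  univ.filter (fun x => (q.1 * x + q.2.1, q.1 * P.eval x + q.2.2) ∈ T)

/-- The pairs which give patterns. -/
noncomputable def EE (P : (ZMod p)[X]) (T : Finset (ZMod p × ZMod p))
    (q : ZMod p × ZMod p × ZMod p) : Finset (ZMod p × ZMod p) :=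
  (PT P T q ×ˢ PT P T q).filter
    (fun w => w.1 ≠ w.2 ∧ w.2 + P.eval w.1 - P.eval w.2 ∈ PT P T q)

theorem sum_PT (P : (ZMod p)[X]) (T : Finset (ZMod p × ZMod p)) :
    ∑ q, (PT P T q).card = p ^ 2 * T.card := by
  have h1 : ∀ q : ZMod p × ZMod p × ZMod p, (PT P T q).card = ∑ x : ZMod p,
      (if (q.1 * x + q.2.1, q.1 * P.eval x + q.2.2) ∈ T then 1 else 0) := by
    intro q
    unfold PT
    rw [card_filter]
  simp_rw [h1]
  rw [sum_comm]
  have h2 : ∀ x : ZMod p, ∑ q : ZMod p × ZMod p × ZMod p,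
      (if (q.1 * x + q.2.1, q.1 * P.eval x + q.2.2) ∈ T then 1 else 0) = p * T.card := by
    intro x
    rw [Fintype.sum_prod_type]
    have h3 : ∀ c : ZMod p, ∑ w : ZMod p × ZMod p,
        (if (c * x + w.1, c * P.eval x + w.2) ∈ T then 1 else 0) = T.card := by
      intro c
      rw [← card_filter, card_shift]
    simp only
    simp_rw [h3]
    rw [sum_const, card_univ, ZMod.card, smul_eq_mul]
  simp_rw [h2]
  rw [sum_const, card_univ, ZMod.card, smul_eq_mul]
  ring

theorem EE_le {B : Finset ℕ} {l N : ℕ} (hB : B ⊆ range N) (hN : 4 * l * N ≤ p)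
    (hA : ThreeAPFree (B : Set ℕ)) (P : (ZMod p)[X]) (q : ZMod p × ZMod p × ZMod p) :
    (EE P (BX p B l) q).card ≤ ∑ w : ZMod p × ZMod p,
      (if (q.1, w) ∈ TS P l then
        (if (q.1 * w.2 + q.2.1, q.1 * P.eval w.2 + q.2.2) ∈ BX p B l then 1 else 0) else 0) := by
  have h1 : ∀ w : ZMod p × ZMod p, (if (q.1, w) ∈ TS P l then
        (if (q.1 * w.2 + q.2.1, q.1 * P.eval w.2 + q.2.2) ∈ BX p B l then 1 else 0) else 0) =
      (if (q.1, w) ∈ TS P l ∧ (q.1 * w.2 + q.2.1, q.1 * P.eval w.2 + q.2.2) ∈ BX p B l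
        then 1 else 0) := by
    intro w
    rw [ite_and]
  simp_rw [h1]
  rw [← card_filter]
  refine card_le_card ?_
  intro w hw
  obtain ⟨hw1, hw2, hw3⟩ := mem_filter.1 hw
  rw [mem_product] at hw1
  obtain ⟨hx, hy⟩ := hw1
  have hx' := (mem_filter.1 hx).2
  have hy' := (mem_filter.1 hy).2
  have hz' := (mem_filter.1 hw3).2
  rw [mem_filter]
  refine ⟨mem_univ _, ?_, hy'⟩
  have hb := box_pattern hB hN hA hx' hy' hz' (by ring)
  classical
  unfold TS
  rw [mem_filter]
  refine ⟨mem_univ _, ?_, ?_, ?_⟩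
  · have e : q.1 * (w.1 - w.2) = q.1 * w.1 + q.2.1 - (q.1 * w.2 + q.2.1) := by ring
    simp only
    rw [e]
    exact hb.1
  · have e : q.1 * (P.eval w.1 - P.eval w.2) =
      q.1 * P.eval w.1 + q.2.2 - (q.1 * P.eval w.2 + q.2.2) := by ring
    simp only
    rw [e]
    exact hb.2.1
  · have e : q.1 * (P.eval (w.2 + P.eval w.1 - P.eval w.2) - P.eval w.2) =
      q.1 * P.eval (w.2 + P.eval w.1 - P.eval w.2) + q.2.2 - (q.1 * P.eval w.2 + q.2.2) := by
      ring
    simp only
    rw [e]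
    exact hb.2.2

theorem sum_EE {B : Finset ℕ} {l N : ℕ} (hB : B ⊆ range N) (hN : 4 * l * N ≤ p)
    (hA : ThreeAPFree (B : Set ℕ)) (P : (ZMod p)[X]) :
    ∑ q, (EE P (BX p B l) q).card ≤ (TS P l).card * (BX p B l).card := by
  refine (sum_le_sum fun q _ => EE_le hB hN hA P q).trans (le_of_eq ?_)
  rw [Fintype.sum_prod_type]
  have h1 : ∀ c : ZMod p, ∑ v : ZMod p × ZMod p, ∑ w : ZMod p × ZMod p,
      (if (c, w) ∈ TS P l then
        (if (c * w.2 + v.1, c * P.eval w.2 + v.2) ∈ BX p B l then 1 else 0) else 0) =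
      ∑ w : ZMod p × ZMod p, (if (c, w) ∈ TS P l then 1 else 0) * (BX p B l).card := by
    intro c
    rw [sum_comm]
    refine sum_congr rfl fun w _ => ?_
    split_ifs with h
    · rw [← card_filter, card_shift, one_mul]
    · simp
  simp only
  simp_rw [h1]
  rw [← Fintype.sum_prod_type (fun q : ZMod p × ZMod p × ZMod p =>
    (if q ∈ TS P l then 1 else 0) * (BX p B l).card), ← sum_mul, ← card_filter]
  congr 2
  ext q
  simp

/-- The choice of the affine image. -/
theorem exists_good {B : Finset ℕ} {l N : ℕ} (hB : B ⊆ range N) (hN : 4 * l * N ≤ p)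
    (hA : ThreeAPFree (B : Set ℕ)) (P : (ZMod p)[X]) {K : ℕ} (hK : 0 < K)
    (hTS : (TS P l).card ≤ K * p ^ 2) :
    ∃ q, (BX p B l).card ≤ 2 * p * (PT P (BX p B l) q).card ∧
      (EE P (BX p B l) q).card ≤ 2 * K * (PT P (BX p B l) q).card := by
  have hp : 0 < p := (Fact.out : p.Prime).pos
  have hp' : (0 : ℝ) < p := by exact_mod_cast hp
  have hK' : (0 : ℝ) < K := by exact_mod_cast hK
  set T := BX p B l with hT
  have h1 : ((∑ q, (PT P T q).card : ℕ) : ℝ) = (p : ℝ) ^ 2 * T.card := by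
    rw [sum_PT]
    push_cast
    ring
  have h2 : ((∑ q, (EE P T q).card : ℕ) : ℝ) ≤ (K * (p : ℝ) ^ 2) * T.card := by
    have h3 := (sum_EE hB hN hA P).trans (Nat.mul_le_mul_right _ hTS)
    exact_mod_cast h3
  have h4 : ∑ q : ZMod p × ZMod p × ZMod p, ((T.card : ℝ) / (2 * p)) ≤
      ∑ q, (((PT P T q).card : ℝ) - (EE P T q).card / (2 * K)) := by
    rw [sum_const, card_univ, Fintype.card_prod, Fintype.card_prod, ZMod.card, nsmul_eq_mul,
      sum_sub_distrib, ← sum_div]
    push_cast at h1 h2 ⊢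
    rw [h1]
    have h5 : (∑ q, ((EE P T q).card : ℝ)) / (2 * K) ≤ (K * (p : ℝ) ^ 2) * T.card / (2 * K) :=
      div_le_div_of_nonneg_right h2 (by positivity)
    have h6 : (K * (p : ℝ) ^ 2) * T.card / (2 * K) = (p : ℝ) ^ 2 * T.card / 2 := by
      field_simp
    have h7 : (p : ℝ) * (p * p) * (T.card / (2 * p)) = (p : ℝ) ^ 2 * T.card / 2 := by
      field_simp
    rw [h7]
    linarith
  obtain ⟨q, _, hq⟩ := exists_le_of_sum_le (univ_nonempty) h4
  refine ⟨q, ?_, ?_⟩
  · have h8 : (T.card : ℝ) / (2 * p) ≤ (PT P T q).card := by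
      have : (0 : ℝ) ≤ (EE P T q).card / (2 * K) := by positivity
      linarith
    rw [div_le_iff₀ (by positivity)] at h8
    have h9 : (T.card : ℝ) ≤ 2 * p * (PT P T q).card := by linarith
    exact_mod_cast h9
  · have h8 : ((EE P T q).card : ℝ) / (2 * K) ≤ (PT P T q).card := by
      have : (0 : ℝ) ≤ (T.card : ℝ) / (2 * p) := by positivity
      linarith
    rw [div_le_iff₀ (by positivity)] at h8
    have h9 : ((EE P T q).card : ℝ) ≤ 2 * K * (PT P T q).card := by linarith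
    exact_mod_cast h9

/-- A large set without the pattern. -/
theorem exists_free {B : Finset ℕ} {l N : ℕ} (hB : B ⊆ range N) (hN : 4 * l * N ≤ p)
    (hA : ThreeAPFree (B : Set ℕ)) (P : (ZMod p)[X]) {K : ℕ} (hK : 0 < K)
    (hTS : (TS P l).card ≤ K * p ^ 2) :
    ∃ A : Finset (ZMod p), B.card * l ^ 2 ≤ 4 * p * (8 * K + 1) * A.card ∧
      ∀ x ∈ A, ∀ y ∈ A, x ≠ y → y + P.eval x - P.eval y ∉ A := by
  classical
  obtain ⟨q, h1, h2⟩ := exists_good hB hN hA P hK hTS
  rw [card_BX hB hN] at h1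
  set S := PT P (BX p B l) q with hS
  obtain ⟨A, hA1, hA2, hA3⟩ := exists_indep S
    (fun x y => y + P.eval x - P.eval y ∈ S) (2 * K) (by
      convert h2 using 2
      unfold EE
      congr)
  refine ⟨A, ?_, ?_⟩
  · refine h1.trans ((Nat.mul_le_mul_left (2 * p) hA2).trans (le_of_eq ?_))
    ring
  · intro x hx y hy hxy h
    exact hA3 x hx y hy hxy (hA1 h)

end Pool.Agent.H12.TT
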