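import Pool.Agent.H12.TT.Cnt

/-!
# Boxes along a line of slope one half

`BX B l` is the union over `b ∈ B` of the boxes with corner `(4 l b, 2 l b)` and side `l`.
-/

set_option autoImplicit false

open Polynomial Finset

namespace Pool.Agent.H12.TT

variable {p : ℕ} [Fact p.Prime]

/-- The union of the boxes. -/
noncomputable def BX (p : ℕ) (B : Finset ℕ) (l : ℕ) : Finset (ZMod p × ZMod p) :=
  (B ×ˢ (range l ×ˢ range l)).image
    (fun q : ℕ × ℕ × ℕ => (((4 * l * q.1 + q.2.1 : ℕ) : ZMod p), ((2 * l * q.1 + q.2.2 : ℕ) : ZMod p)))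

theorem mem_BX {B : Finset ℕ} {l : ℕ} {c r : ZMod p} (h : (c, r) ∈ BX p B l) :
    ∃ b ∈ B, ∃ s < l, ∃ t < l, c = ((4 * l * b + s : ℕ) : ZMod p) ∧
      r = ((2 * l * b + t : ℕ) : ZMod p) := by
  unfold BX at h
  rw [mem_image] at h
  obtain ⟨⟨b, s, t⟩, hq, he⟩ := h
  simp only [mem_product, mem_range] at hq
  simp only [Prod.mk.injEq] at he
  exact ⟨b, hq.1, s, hq.2.1, t, hq.2.2, he.1.symm, he.2.symm⟩

theorem card_BX {B : Finset ℕ} {l N : ℕ} (hB : B ⊆ range N) (hN : 4 * l * N ≤ p) :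
    (BX p B l).card = B.card * l ^ 2 := by
  unfold BX
  rw [card_image_of_injOn, card_product, card_product, card_range, sq]
  rintro ⟨b, s, t⟩ h ⟨b', s', t'⟩ h' he
  simp only [coe_product, Set.mem_prod, mem_coe, mem_range] at h h'
  simp only [Prod.mk.injEq] at he
  obtain ⟨hb, hs, ht⟩ := h
  obtain ⟨hb', hs', ht'⟩ := h'
  have hbN := mem_range.1 (hB hb)
  have hbN' := mem_range.1 (hB hb')
  have k1 : 4 * l * (b + 1) ≤ 4 * l * N := Nat.mul_le_mul_left _ hbN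
  have k2 : 4 * l * (b' + 1) ≤ 4 * l * N := Nat.mul_le_mul_left _ hbN'
  have k3 : 4 * l * (b + 1) = 4 * l * b + 4 * l := by ring
  have k4 : 4 * l * (b' + 1) = 4 * l * b' + 4 * l := by ring
  have e1 : 4 * l * b + s = 4 * l * b' + s' := cast_inj (by omega) (by omega) he.1
  have k5 : 2 * l * b + 2 * l * b = 4 * l * b := by ring
  have k6 : 2 * l * b' + 2 * l * b' = 4 * l * b' := by ring
  have e2 : 2 * l * b + t = 2 * l * b' + t' := cast_inj (by omega) (by omega) he.2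
  have hbb : b = b' := by
    rcases lt_trichotomy b b' with h0 | h0 | h0
    · exfalso
      have : 4 * l * (b + 1) ≤ 4 * l * b' := Nat.mul_le_mul_left _ h0
      omega
    · exact h0
    · exfalso
      have : 4 * l * (b' + 1) ≤ 4 * l * b := Nat.mul_le_mul_left _ h0
      omega
  subst hbb
  have : s = s' := by omega
  have : t = t' := by omega
  simp_all

theorem sm_of {l a b : ℕ} (c : ℕ) (ha : a < l) (hb : b < l) :
    Sm l (((c + a : ℕ) : ZMod p) - ((c + b : ℕ) : ZMod p)) := by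
  refine ⟨(a : ℤ) - b, ?_, ?_⟩
  · rw [abs_lt]
    omega
  · push_cast
    ring

/-- The pattern equation confines the points of the boxes to one box. -/
theorem box_pattern {B : Finset ℕ} {l N : ℕ} (hB : B ⊆ range N) (hN : 4 * l * N ≤ p)
    (hA : ThreeAPFree (B : Set ℕ)) {cx rx cy ry cz rz : ZMod p} (hx : (cx, rx) ∈ BX p B l)
    (hy : (cy, ry) ∈ BX p B l) (hz : (cz, rz) ∈ BX p B l) (h : cz + ry = cy + rx) :
    Sm l (cx - cy) ∧ Sm l (rx - ry) ∧ Sm l (rz - ry) := by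
  obtain ⟨b1, hb1, s1, hs1, t1, ht1, rfl, rfl⟩ := mem_BX hx
  obtain ⟨b2, hb2, s2, hs2, t2, ht2, rfl, rfl⟩ := mem_BX hy
  obtain ⟨b3, hb3, s3, hs3, t3, ht3, rfl, rfl⟩ := mem_BX hz
  have n1 := mem_range.1 (hB hb1)
  have n2 := mem_range.1 (hB hb2)
  have n3 := mem_range.1 (hB hb3)
  have h1 : (((4 * l * b3 + s3) + (2 * l * b2 + t2) : ℕ) : ZMod p) =
      (((4 * l * b2 + s2) + (2 * l * b1 + t1) : ℕ) : ZMod p) := by
    push_cast
    push_cast at h
    exact h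
  have h2 : (p : ℤ) ∣ (((4 * l * b2 + s2) + (2 * l * b1 + t1) : ℕ) : ℤ) -
      (((4 * l * b3 + s3) + (2 * l * b2 + t2) : ℕ) : ℤ) := by
    have := (ZMod.natCast_eq_natCast_iff _ _ _).1 h1
    exact (Nat.modEq_iff_dvd).1 this
  have hN' : (4 * l * N : ℤ) ≤ p := by exact_mod_cast hN
  have hl0 : (0 : ℤ) < l := by
    have : 0 < l := by omega
    exact_mod_cast this
  have h3 : (((4 * l * b2 + s2) + (2 * l * b1 + t1) : ℕ) : ℤ) -
      (((4 * l * b3 + s3) + (2 * l * b2 + t2) : ℕ) : ℤ) =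
      2 * l * ((b1 : ℤ) + b2 - 2 * b3) + ((s2 : ℤ) + t1 - s3 - t2) := by
    push_cast
    ring
  have g1 : (b1 : ℤ) + b2 - 2 * b3 ≤ 2 * (N - 1) := by omega
  have g2 : -(2 * ((N : ℤ) - 1)) ≤ (b1 : ℤ) + b2 - 2 * b3 := by omega
  have g3 : 2 * l * ((b1 : ℤ) + b2 - 2 * b3) ≤ 2 * l * (2 * (N - 1)) :=
    mul_le_mul_of_nonneg_left g1 (by omega)
  have g4 : 2 * l * (-(2 * ((N : ℤ) - 1))) ≤ 2 * l * ((b1 : ℤ) + b2 - 2 * b3) :=
    mul_le_mul_of_nonneg_left g2 (by omega)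
  have g5 : 2 * (l : ℤ) * (2 * (N - 1)) = 4 * l * N - 4 * l := by ring
  have g6 : 2 * (l : ℤ) * (-(2 * ((N : ℤ) - 1))) = -(4 * l * N - 4 * l) := by ring
  have h4 : (((4 * l * b2 + s2) + (2 * l * b1 + t1) : ℕ) : ℤ) -
      (((4 * l * b3 + s3) + (2 * l * b2 + t2) : ℕ) : ℤ) = 0 := by
    refine Int.eq_zero_of_abs_lt_dvd h2 ?_
    rw [h3, abs_lt]
    constructor <;> omega
  rw [h3] at h4
  have h5 : (b1 : ℤ) + b2 - 2 * b3 = 0 := by
    by_contra hne
    rcases lt_or_gt_of_ne hne with h0 | h0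
    · have : 2 * (l : ℤ) * ((b1 : ℤ) + b2 - 2 * b3) ≤ 2 * l * (-1) :=
        mul_le_mul_of_nonneg_left (by omega) (by omega)
      omega
    · have : 2 * (l : ℤ) * 1 ≤ 2 * l * ((b1 : ℤ) + b2 - 2 * b3) :=
        mul_le_mul_of_nonneg_left (by omega) (by omega)
      omega
  have h6 : b1 + b2 = b3 + b3 := by omega
  have h7 : b1 = b3 := hA hb1 hb3 hb2 h6
  have h8 : b2 = b3 := by omega
  subst h7
  subst h8
  exact ⟨sm_of _ hs1 hs2, sm_of _ ht1 ht2, sm_of _ ht3 ht2⟩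

end Pool.Agent.H12.TT
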