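import Pool.Agent.H55.Roth.Kernel

/-!
# Counting dilations which make three differences small

For a polynomial `P` of degree `d ≥ 2` over `ZMod p` the number of the triples `(c, x, y)` for
which `c (x - y)`, `c (P x - P y)` and `c (P (y + P x - P y) - P y)` are residues of integers of
absolute value less than `l` is at most `64 l ^ 3 + 8 d ^ 2 p ^ 2`.
-/

set_option autoImplicit false

open Polynomial Finset
open Pool.Agent.H55.Roth

namespace Pool.Agent.H12.TT

variable {p : ℕ} [Fact p.Prime]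

/-- `t` is the residue of an integer of absolute value less than `l`. -/
def Sm (l : ℕ) (t : ZMod p) : Prop := ∃ j : ℤ, |j| < l ∧ t = (j : ZMod p)

/-- The residues of `0, ..., 2 l - 1`. -/
noncomputable def Iv (p l : ℕ) : Finset (ZMod p) :=
  (range (2 * l)).image (fun n : ℕ => (n : ZMod p))

theorem cast_inj {a b : ℕ} (ha : a < p) (hb : b < p) (h : (a : ZMod p) = (b : ZMod p)) :
    a = b := by
  have h2 := (ZMod.natCast_eq_natCast_iff' a b p).1 h
  rwa [Nat.mod_eq_of_lt ha, Nat.mod_eq_of_lt hb] at h2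

theorem card_Iv {l : ℕ} (h : 2 * l ≤ p) : (Iv p l).card = 2 * l := by
  rw [Iv, card_image_of_injOn, card_range]
  intro a ha b hb hab
  simp only [coe_range, Set.mem_Iio] at ha hb
  exact cast_inj (by omega) (by omega) hab

theorem sm_ker {l : ℕ} (hl : 1 ≤ l) (h : 2 * l ≤ p) {t : ZMod p} (ht : Sm l t) :
    1 ≤ 4 * (l : ℝ) * ker (Iv p l) t := by
  obtain ⟨j, hj, rfl⟩ := ht
  have hcard : ((Iv p l).card : ℝ) = 2 * l := by
    rw [card_Iv h]
    push_cast
    ring
  have hsum : (l : ℝ) ≤ ∑ b ∈ Iv p l, ∑ b' ∈ Iv p l,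
      (if b - b' = (j : ZMod p) then (1 : ℝ) else 0) := by
    have e1 : ∑ b ∈ Iv p l, ∑ b' ∈ Iv p l, (if b - b' = (j : ZMod p) then (1 : ℝ) else 0) =
        (((Iv p l ×ˢ Iv p l).filter (fun q => q.1 - q.2 = (j : ZMod p))).card : ℝ) := by
      rw [card_filter, sum_product]
      push_cast
      rfl
    rw [e1]
    have e2 : (range l).card ≤
        ((Iv p l ×ˢ Iv p l).filter (fun q => q.1 - q.2 = (j : ZMod p))).card := by
      rcases le_or_gt 0 j with h0 | h0
      · obtain ⟨n, rfl⟩ := Int.eq_ofNat_of_zero_le h0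
        have hn : n < l := by
          rw [abs_of_nonneg h0] at hj
          exact_mod_cast hj
        refine card_le_card_of_injOn (fun i : ℕ => (((i + n : ℕ) : ZMod p), (i : ZMod p))) ?_ ?_
        · intro i hi
          have hi' : i < l := by simpa using hi
          simp only [coe_filter, mem_product, Set.mem_ofPred_eq, Iv, mem_image, mem_range]
          refine ⟨⟨⟨i + n, by omega, rfl⟩, ⟨i, by omega, rfl⟩⟩, ?_⟩
          push_cast
          ring
        · intro a ha b hb hab
          have ha' : a < l := by simpa using ha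
          have hb' : b < l := by simpa using hb
          simp only [Prod.mk.injEq] at hab
          exact cast_inj (by omega) (by omega) hab.2
      · obtain ⟨n, hn0⟩ := Int.eq_ofNat_of_zero_le (show 0 ≤ -j by omega)
        have hj2 : j = -(n : ℤ) := by omega
        subst hj2
        have hn : n < l := by
          rw [abs_of_neg h0] at hj
          simp only [neg_neg] at hj
          exact_mod_cast hj
        refine card_le_card_of_injOn (fun i : ℕ => ((i : ZMod p), ((i + n : ℕ) : ZMod p))) ?_ ?_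
        · intro i hi
          have hi' : i < l := by simpa using hi
          simp only [coe_filter, mem_product, Set.mem_ofPred_eq, Iv, mem_image, mem_range]
          refine ⟨⟨⟨i, by omega, rfl⟩, ⟨i + n, by omega, rfl⟩⟩, ?_⟩
          push_cast
          ring
        · intro a ha b hb hab
          have ha' : a < l := by simpa using ha
          have hb' : b < l := by simpa using hb
          simp only [Prod.mk.injEq] at hab
          exact cast_inj (by omega) (by omega) hab.1
    rw [card_range] at e2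
    exact_mod_cast e2
  have hl0 : (0 : ℝ) < l := by exact_mod_cast hl
  unfold ker
  rw [hcard]
  rw [← mul_div_assoc, le_div_iff₀ (by positivity)]
  nlinarith

theorem mm_zero {B : Finset (ZMod p)} (hB : B.Nonempty) : mm B 0 = 1 := by
  have hc : (B.card : ℝ) ≠ 0 := by
    have := card_pos.2 hB
    exact_mod_cast this.ne'
  unfold mm
  simp only [zero_mul, e_zero, sum_const, nsmul_eq_mul, mul_one, Complex.norm_natCast]
  field_simp

/-- The polynomial in `x`. -/
noncomputable def RR (P : (ZMod p)[X]) (a b c y : ZMod p) : (ZMod p)[X] :=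
  C a * (X - C y) + C b * (P - C (P.eval y)) +
    C c * (P.comp (P + C (y - P.eval y)) - C (P.eval y))

theorem eval_RR (P : (ZMod p)[X]) (a b c x y : ZMod p) : (RR P a b c y).eval x =
    a * (x - y) + b * (P.eval x - P.eval y) +
      c * (P.eval (y + P.eval x - P.eval y) - P.eval y) := by
  unfold RR
  simp only [eval_add, eval_mul, eval_sub, eval_C, eval_X, eval_comp]
  have h : P.eval x + (y - P.eval y) = y + P.eval x - P.eval y := by ring
  rw [h]

theorem RR_ne {P : (ZMod p)[X]} (hP : 2 ≤ P.natDegree) {a b c : ZMod p}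
    (h : ¬ (a = 0 ∧ b = 0 ∧ c = 0)) (y : ZMod p) :
    RR P a b c y ≠ 0 ∧ (RR P a b c y).natDegree ≤ P.natDegree ^ 2 := by
  set d := P.natDegree with hd
  have hd2 : d < d ^ 2 := by nlinarith
  have h1 : (C a * (X - C y) : (ZMod p)[X]).natDegree ≤ 1 := by
    refine (natDegree_C_mul_le _ _).trans ?_
    rw [natDegree_X_sub_C]
  have h2 : (C b * (P - C (P.eval y)) : (ZMod p)[X]).natDegree ≤ d := by
    refine (natDegree_C_mul_le _ _).trans ?_
    rw [natDegree_sub_C]
  have h12 : (C a * (X - C y) + C b * (P - C (P.eval y)) : (ZMod p)[X]).natDegree ≤ d :=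
    (natDegree_add_le _ _).trans (max_le (by omega) h2)
  have h3 : (P.comp (P + C (y - P.eval y)) - C (P.eval y)).natDegree = d ^ 2 := by
    rw [natDegree_sub_C, natDegree_comp, natDegree_add_C, sq]
  by_cases hc : c = 0
  · subst hc
    have e : RR P a b 0 y = C a * (X - C y) + C b * (P - C (P.eval y)) := by
      unfold RR
      simp
    rw [e]
    refine ⟨?_, h12.trans hd2.le⟩
    by_cases hb : b = 0
    · subst hb
      have ha : a ≠ 0 := fun ha => h ⟨ha, rfl, rfl⟩
      simp only [map_zero, zero_mul, add_zero]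
      exact mul_ne_zero (by simpa using ha) (X_sub_C_ne_zero y)
    · have h4 : (C b * (P - C (P.eval y)) : (ZMod p)[X]).natDegree = d := by
        rw [natDegree_C_mul hb, natDegree_sub_C]
      have h5 : (C a * (X - C y) + C b * (P - C (P.eval y)) : (ZMod p)[X]).natDegree = d := by
        rw [natDegree_add_eq_right_of_natDegree_lt (by omega), h4]
      intro h0
      rw [h0, natDegree_zero] at h5
      omega
  · have h4 : (C c * (P.comp (P + C (y - P.eval y)) - C (P.eval y)) : (ZMod p)[X]).natDegree =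
        d ^ 2 := by
      rw [natDegree_C_mul hc, h3]
    have h5 : (RR P a b c y).natDegree = d ^ 2 := by
      unfold RR
      rw [natDegree_add_eq_right_of_natDegree_lt (by omega), h4]
    refine ⟨?_, h5.le⟩
    intro h0
    rw [h0, natDegree_zero] at h5
    omega

/-- The pairs at which the linear form vanishes. -/
noncomputable def NN (P : (ZMod p)[X]) (a b c : ZMod p) : Finset (ZMod p × ZMod p) :=
  univ.filter (fun q => a * (q.1 - q.2) + b * (P.eval q.1 - P.eval q.2) +
      c * (P.eval (q.2 + P.eval q.1 - P.eval q.2) - P.eval q.2) = 0)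

theorem card_NN {P : (ZMod p)[X]} (hP : 2 ≤ P.natDegree) {a b c : ZMod p}
    (h : ¬ (a = 0 ∧ b = 0 ∧ c = 0)) : (NN P a b c).card ≤ P.natDegree ^ 2 * p := by
  classical
  have h1 : NN P a b c ⊆ univ.biUnion (fun y : ZMod p =>
      (RR P a b c y).roots.toFinset.image (fun x => (x, y))) := by
    intro q hq
    have hq2 := (mem_filter.1 hq).2
    rw [mem_biUnion]
    refine ⟨q.2, mem_univ _, mem_image.2 ⟨q.1, ?_, rfl⟩⟩
    rw [Multiset.mem_toFinset, mem_roots (RR_ne hP h q.2).1, IsRoot.def, eval_RR]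
    exact hq2
  refine (card_le_card h1).trans ?_
  refine card_biUnion_le.trans ?_
  have h2 : ∀ y ∈ (univ : Finset (ZMod p)),
      ((RR P a b c y).roots.toFinset.image (fun x => (x, y))).card ≤ P.natDegree ^ 2 := by
    intro y _
    refine card_image_le.trans ?_
    exact (Multiset.toFinset_card_le _).trans ((card_roots' _).trans (RR_ne hP h y).2)
  refine (sum_le_sum h2).trans ?_
  rw [sum_const, card_univ, ZMod.card, smul_eq_mul, mul_comm]

theorem card_NN_zero (P : (ZMod p)[X]) : ((NN P 0 0 0).card : ℝ) = (p : ℝ) ^ 2 := by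
  have : NN P 0 0 0 = univ := by
    unfold NN
    simp
  rw [this, card_univ, Fintype.card_prod, ZMod.card]
  push_cast
  ring

/-- The sum of the characters. -/
theorem char_sum (P : (ZMod p)[X]) (a b c : ZMod p) :
    ∑ q : ZMod p × ZMod p × ZMod p, e (a * (q.1 * (q.2.1 - q.2.2)) +
      b * (q.1 * (P.eval q.2.1 - P.eval q.2.2)) +
      c * (q.1 * (P.eval (q.2.2 + P.eval q.2.1 - P.eval q.2.2) - P.eval q.2.2))) =
      (p : ℂ) * (NN P a b c).card := by
  rw [Fintype.sum_prod_type_right]
  have h1 : ∀ r : ZMod p × ZMod p, ∑ s : ZMod p, e (a * (s * (r.1 - r.2)) +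
      b * (s * (P.eval r.1 - P.eval r.2)) +
      c * (s * (P.eval (r.2 + P.eval r.1 - P.eval r.2) - P.eval r.2))) =
      if a * (r.1 - r.2) + b * (P.eval r.1 - P.eval r.2) +
      c * (P.eval (r.2 + P.eval r.1 - P.eval r.2) - P.eval r.2) = 0 then (p : ℂ) else 0 := by
    intro r
    rw [← sum_e_mul]
    refine sum_congr rfl fun s _ => ?_
    congr 1
    ring
  simp_rw [h1]
  rw [← sum_filter, sum_const, nsmul_eq_mul, mul_comm]
  rfl

/-- The smoothed count. -/
theorem ker_sum {P : (ZMod p)[X]} (hP : 2 ≤ P.natDegree) {B : Finset (ZMod p)}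
    (hB : B.Nonempty) :
    ∑ q : ZMod p × ZMod p × ZMod p, ker B (q.1 * (q.2.1 - q.2.2)) *
      ker B (q.1 * (P.eval q.2.1 - P.eval q.2.2)) *
      ker B (q.1 * (P.eval (q.2.2 + P.eval q.2.1 - P.eval q.2.2) - P.eval q.2.2)) ≤
      1 + (P.natDegree : ℝ) ^ 2 * p ^ 2 / (B.card : ℝ) ^ 3 := by
  have hp0 : (p : ℝ) ≠ 0 := by
    have : p ≠ 0 := (Fact.out : p.Prime).ne_zero
    exact_mod_cast this
  have hc : (B.card : ℝ) ≠ 0 := by
    have := card_pos.2 hB
    exact_mod_cast this.ne'
  have h1 : ((∑ q : ZMod p × ZMod p × ZMod p, ker B (q.1 * (q.2.1 - q.2.2)) *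
      ker B (q.1 * (P.eval q.2.1 - P.eval q.2.2)) *
      ker B (q.1 * (P.eval (q.2.2 + P.eval q.2.1 - P.eval q.2.2) - P.eval q.2.2)) : ℝ) : ℂ) =
      ((1 / (p : ℝ) ^ 2 * ∑ a, ∑ b, ∑ c, mm B a * mm B b * mm B c * (NN P a b c).card : ℝ) : ℂ) := by
    rw [Complex.ofReal_sum]
    simp_rw [ker3]
    rw [← mul_sum]
    have h2 : ∑ q : ZMod p × ZMod p × ZMod p, ∑ a, ∑ b, ∑ c,
        ((mm B a * mm B b * mm B c : ℝ) : ℂ) * e (a * (q.1 * (q.2.1 - q.2.2)) +
      b * (q.1 * (P.eval q.2.1 - P.eval q.2.2)) +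
      c * (q.1 * (P.eval (q.2.2 + P.eval q.2.1 - P.eval q.2.2) - P.eval q.2.2))) =
        ∑ a, ∑ b, ∑ c, ((mm B a * mm B b * mm B c : ℝ) : ℂ) * ((p : ℂ) * (NN P a b c).card) := by
      rw [sum_comm]
      refine sum_congr rfl fun a _ => ?_
      rw [sum_comm]
      refine sum_congr rfl fun b _ => ?_
      rw [sum_comm]
      refine sum_congr rfl fun c _ => ?_
      rw [← mul_sum, char_sum]
    rw [h2]
    push_cast
    have hp : (p : ℂ) ≠ 0 := p_ne_zero
    rw [mul_sum, mul_sum]
    refine sum_congr rfl fun a _ => ?_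
    rw [mul_sum, mul_sum]
    refine sum_congr rfl fun b _ => ?_
    rw [mul_sum, mul_sum]
    refine sum_congr rfl fun c _ => ?_
    field_simp
  have h1' := Complex.ofReal_injective h1
  rw [h1']
  have h3 : ∀ a b c : ZMod p, mm B a * mm B b * mm B c * ((NN P a b c).card : ℝ) ≤
      (if a = 0 ∧ b = 0 ∧ c = 0 then (p : ℝ) ^ 2 else 0) +
        mm B a * mm B b * mm B c * ((P.natDegree : ℝ) ^ 2 * p) := by
    intro a b c
    have hm : 0 ≤ mm B a * mm B b * mm B c :=
      mul_nonneg (mul_nonneg (mm_nonneg B a) (mm_nonneg B b)) (mm_nonneg B c)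
    split_ifs with h
    · obtain ⟨rfl, rfl, rfl⟩ := h
      rw [mm_zero hB, card_NN_zero]
      have : (0 : ℝ) ≤ (P.natDegree : ℝ) ^ 2 * p := by positivity
      linarith
    · rw [zero_add]
      refine mul_le_mul_of_nonneg_left ?_ hm
      exact_mod_cast card_NN hP h
  have h4 : ∑ a, ∑ b, ∑ c, mm B a * mm B b * mm B c * ((NN P a b c).card : ℝ) ≤
      (p : ℝ) ^ 2 + (p / B.card : ℝ) ^ 3 * ((P.natDegree : ℝ) ^ 2 * p) := by
    refine (sum_le_sum fun a _ => sum_le_sum fun b _ => sum_le_sum fun c _ => h3 a b c).trans ?_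
    simp_rw [sum_add_distrib]
    refine add_le_add (le_of_eq ?_) (le_of_eq ?_)
    · rw [sum_eq_single (0 : ZMod p), sum_eq_single (0 : ZMod p), sum_eq_single (0 : ZMod p)]
      · simp
      · intro c _ hc0
        rw [if_neg]
        simp [hc0]
      · simp
      · intro b _ hb0
        refine sum_eq_zero fun c _ => ?_
        rw [if_neg]
        simp [hb0]
      · simp
      · intro a _ ha0
        refine sum_eq_zero fun b _ => sum_eq_zero fun c _ => ?_
        rw [if_neg]
        simp [ha0]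
      · simp
    · rw [← sum_mm hB, pow_three, sum_mul_sum, sum_mul_sum, sum_mul]
      refine sum_congr rfl fun a _ => ?_
      rw [sum_mul]
      refine sum_congr rfl fun b _ => ?_
      rw [mul_sum, sum_mul]
      refine sum_congr rfl fun c _ => ?_
      ring
  refine (mul_le_mul_of_nonneg_left h4 (by positivity)).trans (le_of_eq ?_)
  field_simp

/-- The triples for which the three differences are small. -/
noncomputable def TS (P : (ZMod p)[X]) (l : ℕ) : Finset (ZMod p × ZMod p × ZMod p) :=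
  by classical exact univ.filter (fun q => Sm l (q.1 * (q.2.1 - q.2.2)) ∧
    Sm l (q.1 * (P.eval q.2.1 - P.eval q.2.2)) ∧
    Sm l (q.1 * (P.eval (q.2.2 + P.eval q.2.1 - P.eval q.2.2) - P.eval q.2.2)))

theorem card_TS {P : (ZMod p)[X]} (hP : 2 ≤ P.natDegree) {l : ℕ} (hl : 1 ≤ l)
    (hlp : 2 * l ≤ p) :
    ((TS P l).card : ℝ) ≤ 64 * (l : ℝ) ^ 3 + 8 * (P.natDegree : ℝ) ^ 2 * (p : ℝ) ^ 2 := by
  classical
  have hl0 : (0 : ℝ) < l := by exact_mod_cast hl
  have hB : (Iv p l).Nonempty := by
    rw [← card_pos, card_Iv hlp]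
    omega
  have h1 : ((TS P l).card : ℝ) ≤ ∑ q : ZMod p × ZMod p × ZMod p,
      (4 * (l : ℝ)) ^ 3 * (ker (Iv p l) (q.1 * (q.2.1 - q.2.2)) *
      ker (Iv p l) (q.1 * (P.eval q.2.1 - P.eval q.2.2)) *
      ker (Iv p l) (q.1 * (P.eval (q.2.2 + P.eval q.2.1 - P.eval q.2.2) - P.eval q.2.2))) := by
    rw [card_eq_sum_ones]
    push_cast
    refine (sum_le_sum (g := fun q : ZMod p × ZMod p × ZMod p =>
      (4 * (l : ℝ)) ^ 3 * (ker (Iv p l) (q.1 * (q.2.1 - q.2.2)) *
      ker (Iv p l) (q.1 * (P.eval q.2.1 - P.eval q.2.2)) *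
      ker (Iv p l) (q.1 * (P.eval (q.2.2 + P.eval q.2.1 - P.eval q.2.2) - P.eval q.2.2))))
      ?_).trans ?_
    · intro q hq
      obtain ⟨h2, h3, h4⟩ := (mem_filter.1 hq).2
      have h2' := sm_ker hl hlp h2
      have h3' := sm_ker hl hlp h3
      have h4' := sm_ker hl hlp h4
      have h5 := mul_le_mul h2' h3' zero_le_one (zero_le_one.trans h2')
      have h6 := mul_le_mul h5 h4' zero_le_one ((mul_nonneg zero_le_one zero_le_one).trans h5)
      calc (1 : ℝ) = 1 * 1 * 1 := by norm_num
        _ ≤ _ := h6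
        _ = _ := by ring
    · refine sum_le_sum_of_subset_of_nonneg (subset_univ _) fun q _ _ => ?_
      have := ker_nonneg (Iv p l) (q.1 * (q.2.1 - q.2.2))
      have := ker_nonneg (Iv p l) (q.1 * (P.eval q.2.1 - P.eval q.2.2))
      have := ker_nonneg (Iv p l)
        (q.1 * (P.eval (q.2.2 + P.eval q.2.1 - P.eval q.2.2) - P.eval q.2.2))
      positivity
  rw [← mul_sum] at h1
  refine h1.trans ?_
  have h2 := ker_sum hP hB
  rw [card_Iv hlp] at h2
  refine (mul_le_mul_of_nonneg_left h2 (by positivity)).trans (le_of_eq ?_)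
  push_cast
  field_simp
  ring

end Pool.Agent.H12.TT
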