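import Mathlib

/-!
# Polynomials of degree less than `D` over `ZMod p`
-/

set_option autoImplicit false

open Polynomial Finset

namespace Pool.Agent.H12.TT

variable {p : ℕ} [Fact p.Prime]

/-- The polynomial with the given coefficients. -/
noncomputable def pol (D : ℕ) (c : Fin D → ZMod p) : (ZMod p)[X] :=
  ((degreeLTEquiv (ZMod p) D).symm c : (ZMod p)[X])

theorem pol_degree (D : ℕ) (c : Fin D → ZMod p) : (pol D c).degree < D :=
  mem_degreeLT.1 ((degreeLTEquiv (ZMod p) D).symm c).2

theorem pol_injective (D : ℕ) : Function.Injective (pol (p := p) D) := by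
  intro c c' h
  exact (degreeLTEquiv (ZMod p) D).symm.injective (Subtype.ext h)

theorem pol_surj {D : ℕ} {P : (ZMod p)[X]} (h : P.degree < D) : ∃ c, pol D c = P := by
  refine ⟨degreeLTEquiv (ZMod p) D ⟨P, mem_degreeLT.2 h⟩, ?_⟩
  unfold pol
  rw [LinearEquiv.symm_apply_apply]

open Classical in
theorem ncard_pol (D : ℕ) (Q : (ZMod p)[X] → Prop) :
    ({P : (ZMod p)[X] | P.degree < D ∧ Q P} : Set (ZMod p)[X]).ncard =
      (univ.filter (fun c : Fin D → ZMod p => Q (pol D c))).card := by
  have h1 : ({P : (ZMod p)[X] | P.degree < D ∧ Q P} : Set (ZMod p)[X]) =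
      pol D '' (↑(univ.filter (fun c : Fin D → ZMod p => Q (pol D c))) :
        Set (Fin D → ZMod p)) := by
    ext P
    constructor
    · rintro ⟨h1, h2⟩
      obtain ⟨c, rfl⟩ := pol_surj h1
      exact ⟨c, by simpa using h2, rfl⟩
    · rintro ⟨c, hc, rfl⟩
      exact ⟨pol_degree D c, by simpa using hc⟩
  rw [h1, Set.ncard_image_of_injective _ (pol_injective D), Set.ncard_coe_finset]

theorem ncard_pol' (D : ℕ) (Q : (ZMod p)[X] → Prop) :
    ∃ E : Finset (Fin D → ZMod p), (∀ c, c ∈ E ↔ Q (pol D c)) ∧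
      ({P : (ZMod p)[X] | P.degree < D ∧ Q P} : Set (ZMod p)[X]).ncard = E.card := by
  classical
  exact ⟨_, fun c => by rw [mem_filter]; simp, ncard_pol D Q⟩

/-- Few polynomials have given values on a given set. -/
theorem fiber {D : ℕ} (s : Finset (ZMod p)) (hs : s.card ≤ D) (hD : D ≤ p) (f : ZMod p → ZMod p)
    (T : Finset (Fin D → ZMod p)) (hT : ∀ c ∈ T, ∀ x ∈ s, (pol D c).eval x = f x) :
    T.card ≤ p ^ (D - s.card) := by
  classical
  obtain ⟨s', hss', hs'⟩ : ∃ s' : Finset (ZMod p), s ⊆ s' ∧ s'.card = D :=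
    Finset.exists_superset_card_eq hs (by rw [ZMod.card]; exact hD)
  have h1 : T.card ≤ (univ : Finset ({x // x ∈ s' \ s} → ZMod p)).card := by
    refine card_le_card_of_injOn (fun c x => (pol D c).eval x.1)
      (fun _ _ => mem_coe.2 (mem_univ _)) ?_
    intro c hc c' hc' h
    apply pol_injective D
    refine eq_of_degrees_lt_of_eval_finset_eq s' ?_ ?_ ?_
    · rw [hs']
      exact pol_degree D c
    · rw [hs']
      exact pol_degree D c'
    · intro x hx
      by_cases hxs : x ∈ s
      · rw [hT c (mem_coe.1 hc) x hxs, hT c' (mem_coe.1 hc') x hxs]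
      · exact congrFun h ⟨x, mem_sdiff.2 ⟨hx, hxs⟩⟩
  refine h1.trans (le_of_eq ?_)
  rw [card_univ, Fintype.card_fun, ZMod.card, Fintype.card_coe, card_sdiff_of_subset hss', hs']

theorem card_coef (D : ℕ) : (univ : Finset (Fin D → ZMod p)).card = p ^ D := by
  rw [card_univ, Fintype.card_fun, ZMod.card, Fintype.card_fin]

end Pool.Agent.H12.TT
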