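import Pool.Agent.H12.TT.Cnt
import Pool.Agent.H12.TT.Poly

/-!
# The mean of the number of the triples over the polynomials of degree less than `D`
-/

set_option autoImplicit false

open Polynomial Finset

namespace Pool.Agent.H12.TT

variable {p : ℕ} [Fact p.Prime]

/-- The residues `t` for which `c t` is small. -/
noncomputable def SS (l : ℕ) (c : ZMod p) : Finset (ZMod p) := by
  classical exact univ.filter (fun t => Sm l (c * t))

theorem mem_SS {l : ℕ} {c t : ZMod p} : t ∈ SS l c ↔ Sm l (c * t) := by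
  classical
  unfold SS
  rw [mem_filter]
  simp

theorem card_SS {l : ℕ} {c : ZMod p} (hc : c ≠ 0) : (SS l c).card ≤ 2 * l := by
  classical
  have h1 : SS l c ⊆ (Finset.Ioo (-(l : ℤ)) l).image (fun j : ℤ => c⁻¹ * (j : ZMod p)) := by
    intro t ht
    obtain ⟨j, hj, he⟩ := mem_SS.1 ht
    rw [mem_image]
    refine ⟨j, mem_Ioo.2 (abs_lt.1 hj), ?_⟩
    rw [← he, ← mul_assoc, inv_mul_cancel₀ hc, one_mul]
  refine (card_le_card h1).trans (card_image_le.trans ?_)
  rw [Int.card_Ioo]
  omega

theorem one_point {D : ℕ} (hD0 : 2 ≤ D) (hD : D ≤ p) {x y : ZMod p} (hxy : x ≠ y) (a b : ZMod p)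
    (T : Finset (Fin D → ZMod p))
    (hT : ∀ c ∈ T, (pol D c).eval y = a ∧ (pol D c).eval x = b) : T.card ≤ p ^ (D - 2) := by
  classical
  have h1 : ({x, y} : Finset (ZMod p)).card = 2 := card_pair hxy
  have h2 := fiber ({x, y} : Finset (ZMod p)) (by omega) hD
    (fun z => if z = y then a else b) T (by
      intro c hc z hz
      rw [mem_insert, mem_singleton] at hz
      rcases hz with rfl | rfl
      · rw [if_neg hxy]
        exact (hT c hc).2
      · rw [if_pos rfl]
        exact (hT c hc).1)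
  rwa [h1] at h2

theorem three_point {D : ℕ} (hD0 : 3 ≤ D) (hD : D ≤ p) {x y z : ZMod p} (hxy : x ≠ y)
    (hzx : z ≠ x) (hzy : z ≠ y) (a b e : ZMod p) (T : Finset (Fin D → ZMod p))
    (hT : ∀ c ∈ T, (pol D c).eval y = a ∧ (pol D c).eval x = b ∧ (pol D c).eval z = e) :
    T.card ≤ p ^ (D - 3) := by
  classical
  have h1 : ({z, x, y} : Finset (ZMod p)).card = 3 := by
    rw [card_insert_of_notMem, card_pair hxy]
    simp [hzx, hzy]
  have h2 := fiber ({z, x, y} : Finset (ZMod p)) (by omega) hD
    (fun w => if w = y then a else if w = x then b else e) T (by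
      intro c hc w hw
      rw [mem_insert, mem_insert, mem_singleton] at hw
      rcases hw with rfl | rfl | rfl
      · rw [if_neg hzy, if_neg hzx]
        exact (hT c hc).2.2
      · rw [if_neg hxy, if_pos rfl]
        exact (hT c hc).2.1
      · rw [if_pos rfl]
        exact (hT c hc).1)
  rwa [h1] at h2

/-- The polynomials for which a given pair is counted. -/
noncomputable def PC (D l : ℕ) (q : ZMod p × ZMod p × ZMod p) : Finset (Fin D → ZMod p) := by
  classical exact univ.filter (fun c => q ∈ TS (pol D c) l)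

theorem mem_TS {P : (ZMod p)[X]} {l : ℕ} {q : ZMod p × ZMod p × ZMod p} :
    q ∈ TS P l ↔ Sm l (q.1 * (q.2.1 - q.2.2)) ∧
    Sm l (q.1 * (P.eval q.2.1 - P.eval q.2.2)) ∧
    Sm l (q.1 * (P.eval (q.2.2 + P.eval q.2.1 - P.eval q.2.2) - P.eval q.2.2)) := by
  classical
  unfold TS
  rw [mem_filter]
  simp

theorem card_PC {D l : ℕ} (hD0 : 3 ≤ D) (hD : D ≤ p) {q : ZMod p × ZMod p × ZMod p}
    (hc : q.1 ≠ 0) (hxy : q.2.1 ≠ q.2.2) :
    (PC D l q).card ≤ 2 * p ^ (D - 1) + 4 * l ^ 2 * p ^ (D - 2) := by
  classical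
  obtain ⟨c, x, y⟩ := q
  simp only at hc hxy
  have h1 : PC D l (c, x, y) ⊆
      ((univ : Finset (ZMod p)).biUnion (fun a => univ.filter (fun f : Fin D → ZMod p =>
        (pol D f).eval y = a ∧ (pol D f).eval x = a))) ∪
      (((univ : Finset (ZMod p)).biUnion (fun a => univ.filter (fun f : Fin D → ZMod p =>
        (pol D f).eval y = a ∧ (pol D f).eval x = a + (x - y)))) ∪
      (((univ : Finset (ZMod p)) ×ˢ (((SS l c).filter (fun u => y + u ≠ x ∧ y + u ≠ y)) ×ˢ
        SS l c)).biUnion (fun r => univ.filter (fun f : Fin D → ZMod p =>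
        (pol D f).eval y = r.1 ∧ (pol D f).eval x = r.1 + r.2.1 ∧
          (pol D f).eval (y + r.2.1) = r.1 + r.2.2)))) := by
    intro f hf
    unfold PC at hf
    rw [mem_filter, mem_TS] at hf
    obtain ⟨_, _, h2, h3⟩ := hf
    simp only at h2 h3
    rw [mem_union, mem_union]
    by_cases e1 : (pol D f).eval x = (pol D f).eval y
    · left
      rw [mem_biUnion]
      exact ⟨(pol D f).eval y, mem_univ _, mem_filter.2 ⟨mem_univ _, rfl, e1⟩⟩
    by_cases e2 : (pol D f).eval x = (pol D f).eval y + (x - y)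
    · right
      left
      rw [mem_biUnion]
      exact ⟨(pol D f).eval y, mem_univ _, mem_filter.2 ⟨mem_univ _, rfl, e2⟩⟩
    · right
      right
      rw [mem_biUnion]
      have e3 : y + ((pol D f).eval x - (pol D f).eval y) =
          y + (pol D f).eval x - (pol D f).eval y := by ring
      refine ⟨((pol D f).eval y, (pol D f).eval x - (pol D f).eval y,
        (pol D f).eval (y + (pol D f).eval x - (pol D f).eval y) - (pol D f).eval y), ?_, ?_⟩
      · rw [mem_product, mem_product, mem_filter]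
        refine ⟨mem_univ _, ⟨mem_SS.2 h2, ?_, ?_⟩, mem_SS.2 h3⟩
        · intro h
          apply e2
          simp only at h
          linear_combination h
        · intro h
          apply e1
          simp only at h
          linear_combination h
      · rw [mem_filter]
        refine ⟨mem_univ _, rfl, ?_, ?_⟩
        · simp only
          ring
        · simp only
          rw [e3]
          ring
  refine (card_le_card h1).trans ?_
  refine (card_union_le _ _).trans ?_
  have hpD1 : p * p ^ (D - 2) = p ^ (D - 1) := by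
    rw [← pow_succ']
    congr 1
    omega
  have hpD2 : p * p ^ (D - 3) = p ^ (D - 2) := by
    rw [← pow_succ']
    congr 1
    omega
  have k1 : ((univ : Finset (ZMod p)).biUnion (fun a => univ.filter (fun f : Fin D → ZMod p =>
        (pol D f).eval y = a ∧ (pol D f).eval x = a))).card ≤ p ^ (D - 1) := by
    refine card_biUnion_le.trans ((sum_le_sum (g := fun _ => p ^ (D - 2)) ?_).trans ?_)
    · intro a _
      refine one_point (by omega) hD hxy a a _ ?_
      intro f hf
      exact (mem_filter.1 hf).2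
    · rw [sum_const, card_univ, ZMod.card, smul_eq_mul, hpD1]
  have k2 : ((univ : Finset (ZMod p)).biUnion (fun a => univ.filter (fun f : Fin D → ZMod p =>
        (pol D f).eval y = a ∧ (pol D f).eval x = a + (x - y)))).card ≤ p ^ (D - 1) := by
    refine card_biUnion_le.trans ((sum_le_sum (g := fun _ => p ^ (D - 2)) ?_).trans ?_)
    · intro a _
      refine one_point (by omega) hD hxy a (a + (x - y)) _ ?_
      intro f hf
      exact (mem_filter.1 hf).2
    · rw [sum_const, card_univ, ZMod.card, smul_eq_mul, hpD1]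
  have k3 : (((univ : Finset (ZMod p)) ×ˢ (((SS l c).filter (fun u => y + u ≠ x ∧ y + u ≠ y)) ×ˢ
        SS l c)).biUnion (fun r => univ.filter (fun f : Fin D → ZMod p =>
        (pol D f).eval y = r.1 ∧ (pol D f).eval x = r.1 + r.2.1 ∧
          (pol D f).eval (y + r.2.1) = r.1 + r.2.2))).card ≤ 4 * l ^ 2 * p ^ (D - 2) := by
    refine card_biUnion_le.trans ((sum_le_sum (g := fun _ => p ^ (D - 3)) ?_).trans ?_)
    · intro r hr
      rw [mem_product, mem_product, mem_filter] at hr
      refine three_point hD0 hD hxy hr.2.1.2.1 hr.2.1.2.2 r.1 (r.1 + r.2.1) (r.1 + r.2.2) _ ?_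
      intro f hf
      exact (mem_filter.1 hf).2
    · rw [sum_const, card_product, card_product, card_univ, ZMod.card, smul_eq_mul]
      have s1 : ((SS l c).filter (fun u => y + u ≠ x ∧ y + u ≠ y)).card ≤ 2 * l :=
        (card_le_card (filter_subset _ _)).trans (card_SS hc)
      have s2 : (SS l c).card ≤ 2 * l := card_SS hc
      calc p * (((SS l c).filter (fun u => y + u ≠ x ∧ y + u ≠ y)).card * (SS l c).card) *
          p ^ (D - 3) ≤ p * ((2 * l) * (2 * l)) * p ^ (D - 3) :=
            Nat.mul_le_mul_right _ (Nat.mul_le_mul_left _ (Nat.mul_le_mul s1 s2))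
        _ = 4 * l ^ 2 * (p * p ^ (D - 3)) := by ring
        _ = 4 * l ^ 2 * p ^ (D - 2) := by rw [hpD2]
  have k4 := card_union_le ((univ : Finset (ZMod p)).biUnion (fun a => univ.filter
      (fun f : Fin D → ZMod p => (pol D f).eval y = a ∧ (pol D f).eval x = a + (x - y))))
      (((univ : Finset (ZMod p)) ×ˢ (((SS l c).filter (fun u => y + u ≠ x ∧ y + u ≠ y)) ×ˢ
        SS l c)).biUnion (fun r => univ.filter (fun f : Fin D → ZMod p =>
        (pol D f).eval y = r.1 ∧ (pol D f).eval x = r.1 + r.2.1 ∧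
          (pol D f).eval (y + r.2.1) = r.1 + r.2.2)))
  omega

theorem sum_TS {D l : ℕ} (hD0 : 3 ≤ D) (hD : D ≤ p) (hlp : 2 * l ≤ p) (hl3 : l ^ 3 ≤ p ^ 2) :
    ∑ f : Fin D → ZMod p, (TS (pol D f) l).card ≤ 12 * p ^ 2 * p ^ D := by
  classical
  have h1 : ∑ f : Fin D → ZMod p, (TS (pol D f) l).card =
      ∑ q : ZMod p × ZMod p × ZMod p, (PC D l q).card := by
    have e1 : ∀ f : Fin D → ZMod p, (TS (pol D f) l).card =
        ∑ q : ZMod p × ZMod p × ZMod p, if q ∈ TS (pol D f) l then 1 else 0 := by
      intro f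
      rw [← card_filter]
      congr 1
      ext q
      simp
    simp_rw [e1]
    rw [sum_comm]
    refine sum_congr rfl fun q _ => ?_
    rw [← card_filter]
    unfold PC
    congr 1
  rw [h1]
  have h2 : ∀ q : ZMod p × ZMod p × ZMod p, (PC D l q).card ≤
      (if q.1 = 0 then p ^ D else 0) + (if q.2.1 = q.2.2 then p ^ D else 0) +
      (if q.1 ≠ 0 ∧ q.2.1 - q.2.2 ∈ SS l q.1 then
        (2 * p ^ (D - 1) + 4 * l ^ 2 * p ^ (D - 2)) else 0) := by
    intro q
    have htriv : (PC D l q).card ≤ p ^ D := by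
      rw [← card_coef D]
      exact card_le_card (subset_univ _)
    by_cases e1 : q.1 = 0
    · rw [if_pos e1]
      omega
    by_cases e2 : q.2.1 = q.2.2
    · rw [if_pos e2]
      omega
    by_cases e3 : q.2.1 - q.2.2 ∈ SS l q.1
    · rw [if_neg e1, if_neg e2, if_pos ⟨e1, e3⟩]
      have := card_PC (l := l) hD0 hD e1 e2
      omega
    · have : PC D l q = ∅ := by
        rw [eq_empty_iff_forall_notMem]
        intro f hf
        unfold PC at hf
        rw [mem_filter, mem_TS] at hf
        exact e3 (mem_SS.2 hf.2.1)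
      rw [this, card_empty]
      exact Nat.zero_le _
  refine (sum_le_sum fun q _ => h2 q).trans ?_
  rw [sum_add_distrib, sum_add_distrib]
  have s1 : ∑ q : ZMod p × ZMod p × ZMod p, (if q.1 = 0 then p ^ D else 0) = p ^ 2 * p ^ D := by
    rw [Fintype.sum_prod_type]
    have e1 : ∀ c : ZMod p, ∑ w : ZMod p × ZMod p, (if (c, w).1 = 0 then p ^ D else 0) =
        if c = 0 then p * p * p ^ D else 0 := by
      intro c
      by_cases hc : c = 0
      · simp [hc, ZMod.card]
      · simp [hc]
    rw [sum_congr rfl fun c _ => e1 c, sum_ite_eq' univ (0 : ZMod p), if_pos (mem_univ _)]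
    ring
  have s2 : ∑ q : ZMod p × ZMod p × ZMod p, (if q.2.1 = q.2.2 then p ^ D else 0) =
      p ^ 2 * p ^ D := by
    rw [Fintype.sum_prod_type]
    have e1 : ∀ c : ZMod p, ∑ w : ZMod p × ZMod p, (if w.1 = w.2 then p ^ D else 0) = p * p ^ D := by
      intro _
      rw [Fintype.sum_prod_type]
      simp only [sum_ite_eq, mem_univ, if_true, sum_const, card_univ, ZMod.card, smul_eq_mul]
    simp only
    rw [sum_congr rfl fun c _ => e1 c, sum_const, card_univ, ZMod.card, smul_eq_mul]
    ring
  have s3 : ∑ q : ZMod p × ZMod p × ZMod p, (if q.1 ≠ 0 ∧ q.2.1 - q.2.2 ∈ SS l q.1 then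
        (2 * p ^ (D - 1) + 4 * l ^ 2 * p ^ (D - 2)) else 0) ≤
      p * (p * (2 * l)) * (2 * p ^ (D - 1) + 4 * l ^ 2 * p ^ (D - 2)) := by
    rw [← sum_filter, sum_const, smul_eq_mul]
    refine Nat.mul_le_mul_right _ ?_
    rw [card_filter, Fintype.sum_prod_type]
    refine (sum_le_sum (g := fun _ => p * (2 * l)) ?_).trans ?_
    · intro c _
      by_cases hc : c = 0
      · simp [hc]
      · have e1 : ∑ w : ZMod p × ZMod p, (if c ≠ 0 ∧ w.1 - w.2 ∈ SS l c then 1 else 0) =
            ∑ y : ZMod p, (SS l c).card := by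
          rw [Fintype.sum_prod_type_right]
          refine sum_congr rfl fun y _ => ?_
          simp only
          rw [← card_filter]
          refine card_nbij' (fun x => x - y) (fun t => t + y) ?_ ?_ ?_ ?_
          · intro x hx
            have := (mem_filter.1 (mem_coe.1 hx)).2
            exact mem_coe.2 this.2
          · intro t ht
            refine mem_coe.2 (mem_filter.2 ⟨mem_univ _, hc, ?_⟩)
            have : t + y - y = t := by ring
            rw [this]
            exact mem_coe.1 ht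
          · intro x _
            simp
          · intro t _
            simp
        simp only
        rw [e1, sum_const, card_univ, ZMod.card, smul_eq_mul]
        exact Nat.mul_le_mul_left _ (card_SS hc)
    · rw [sum_const, card_univ, ZMod.card, smul_eq_mul]
  rw [s1, s2]
  have hpD1 : p * p ^ (D - 1) = p ^ D := by
    rw [← pow_succ']
    congr 1
    omega
  have hpD2 : p ^ 2 * p ^ (D - 2) = p ^ D := by
    rw [← pow_add]
    congr 1
    omega
  have s4 : p * (p * (2 * l)) * (2 * p ^ (D - 1) + 4 * l ^ 2 * p ^ (D - 2)) =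
      2 * (2 * l) * p * (p * p ^ (D - 1)) + 8 * l ^ 3 * (p ^ 2 * p ^ (D - 2)) := by ring
  rw [s4, hpD1, hpD2] at s3
  have s5 : 2 * (2 * l) * p * p ^ D ≤ 2 * p * p * p ^ D := by
    refine Nat.mul_le_mul_right _ (Nat.mul_le_mul_right _ (Nat.mul_le_mul_left _ hlp))
  have s6 : 8 * l ^ 3 * p ^ D ≤ 8 * p ^ 2 * p ^ D :=
    Nat.mul_le_mul_right _ (Nat.mul_le_mul_left _ hl3)
  have s7 : 2 * p * p * p ^ D = 2 * (p ^ 2 * p ^ D) := by ring
  have s8 : 8 * p ^ 2 * p ^ D = 8 * (p ^ 2 * p ^ D) := by ring
  have s9 : 12 * p ^ 2 * p ^ D = 12 * (p ^ 2 * p ^ D) := by ring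
  omega

end Pool.Agent.H12.TT
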