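import Pool.Agent.H12.TT.Poly

/-!
# Counting the polynomials with a large pattern free set
-/

set_option autoImplicit false

open Finset

namespace Pool.Agent.H12.TT

variable {p : ℕ} [Fact p.Prime]

/-- There are no distinct `x, y ∈ A` with `y + F x - F y ∈ A`. -/
def Free (F : ZMod p → ZMod p) (A : Finset (ZMod p)) : Prop :=
  ∀ x ∈ A, ∀ y ∈ A, x ≠ y → y + F x - F y ∉ A

theorem Free.subset {F : ZMod p → ZMod p} {A A' : Finset (ZMod p)} (h : Free F A)
    (hA : A' ⊆ A) : Free F A' :=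
  fun x hx y hy hxy hz => h x (hA hx) y (hA hy) hxy (hA hz)

theorem images_eq {A : Finset (ZMod p)} {F G : ZMod p → ZMod p} (h1 : Free F A)
    (h2 : A.image F = A.image G)
    (h3 : A.image (fun x => x - F x) = A.image (fun x => x - G x)) {z : ZMod p} (hz : z ∈ A) :
    F z = G z := by
  have e1 : G z ∈ A.image F := by
    rw [h2]
    exact mem_image_of_mem _ hz
  have e2 : z - G z ∈ A.image (fun x => x - F x) := by
    rw [h3]
    exact mem_image_of_mem (fun x => x - G x) hz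
  obtain ⟨x, hx, hx2⟩ := mem_image.1 e1
  obtain ⟨y, hy, hy2⟩ := mem_image.1 e2
  have e3 : y + F x - F y = z := by
    have : y + F x - F y = (y - F y) + F x := by ring
    rw [this, hy2, hx2]
    ring
  by_cases hxy : x = y
  · subst hxy
    have : x = z := by
      rw [← e3]
      ring
    subst this
    exact hx2
  · exact absurd (e3 ▸ hz) (h1 x hx y hy hxy)

/-- The polynomial functions with given images of `A`. -/
noncomputable def Fib (D : ℕ) (A B C : Finset (ZMod p)) : Finset (Fin D → ZMod p) := by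
  classical exact univ.filter (fun c => Free (fun x => (pol D c).eval x) A ∧
    A.image (fun x => (pol D c).eval x) = B ∧ A.image (fun x => x - (pol D c).eval x) = C)

theorem mem_Fib {D : ℕ} {A B C : Finset (ZMod p)} {c : Fin D → ZMod p} :
    c ∈ Fib D A B C ↔ Free (fun x => (pol D c).eval x) A ∧
    A.image (fun x => (pol D c).eval x) = B ∧ A.image (fun x => x - (pol D c).eval x) = C := by
  classical
  unfold Fib
  rw [mem_filter]
  simp

theorem card_Fib_le {D : ℕ} (A B C : Finset (ZMod p)) (hA : A.card ≤ D) (hD : D ≤ p) :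
    (Fib D A B C).card ≤ p ^ (D - A.card) := by
  classical
  rcases (Fib D A B C).eq_empty_or_nonempty with h | ⟨c, hc⟩
  · rw [h, card_empty]
    exact Nat.zero_le _
  · refine fiber A hA hD (fun x => (pol D c).eval x) _ ?_
    intro c' hc' x hx
    obtain ⟨h1, h2, h3⟩ := mem_Fib.1 hc
    obtain ⟨g1, g2, g3⟩ := mem_Fib.1 hc'
    exact images_eq g1 (g2.trans h2.symm) (g3.trans h3.symm) hx

/-- The polynomials with a pattern free set of size `m`. -/
noncomputable def Bad (p D m : ℕ) [Fact p.Prime] : Finset (Fin D → ZMod p) := by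
  classical exact univ.filter (fun c => ∃ A : Finset (ZMod p), A.card = m ∧
    Free (fun x => (pol D c).eval x) A)

theorem card_Bad_le {D m : ℕ} (hm : m ≤ D) (hD : D ≤ p) :
    (Bad p D m).card ≤ p.choose m ^ 3 * p ^ (D - m) := by
  classical
  have h1 : Bad p D m ⊆ ((powersetCard m (univ : Finset (ZMod p))) ×ˢ
      ((powersetCard m (univ : Finset (ZMod p))) ×ˢ
      (powersetCard m (univ : Finset (ZMod p))))).biUnion (fun q => Fib D q.1 q.2.1 q.2.2) := by
    intro c hc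
    unfold Bad at hc
    rw [mem_filter] at hc
    obtain ⟨_, A, hA, hfree⟩ := hc
    rw [mem_biUnion]
    refine ⟨(A, A.image (fun x => (pol D c).eval x), A.image (fun x => x - (pol D c).eval x)),
      ?_, ?_⟩
    · simp only [mem_product, mem_powersetCard_univ]
      refine ⟨hA, ?_, ?_⟩
      · rw [card_image_of_injOn, hA]
        intro x hx y hy hxy
        by_contra hne
        refine hfree x hx y hy hne ?_
        simp only at hxy ⊢
        rw [hxy]
        simpa using hy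
      · rw [card_image_of_injOn, hA]
        intro x hx y hy hxy
        by_contra hne
        simp only at hxy
        refine hfree y hy x hx (fun h => hne h.symm) ?_
        have : x + (pol D c).eval y - (pol D c).eval x = y := by
          have h2 : x + (pol D c).eval y - (pol D c).eval x =
            (x - (pol D c).eval x) + (pol D c).eval y := by ring
          rw [h2, hxy]
          ring
        simp only
        rw [this]
        exact hy
    · simp only
      rw [mem_Fib]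
      exact ⟨hfree, rfl, rfl⟩
  refine (card_le_card h1).trans (card_biUnion_le.trans ?_)
  refine (sum_le_sum (g := fun _ => p ^ (D - m)) ?_).trans (le_of_eq ?_)
  · intro q hq
    rw [mem_product] at hq
    have hA : q.1.card = m := by simpa using hq.1
    have := card_Fib_le (D := D) q.1 q.2.1 q.2.2 (by omega) hD
    rwa [hA] at this
  · rw [sum_const, card_product, card_product, card_powersetCard, card_univ, ZMod.card,
      smul_eq_mul]
    ring

theorem exp_three : Real.exp 3 / 27 ≤ 3 / 4 := by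
  have h := Real.exp_one_lt_d9
  have h1 : Real.exp 3 = Real.exp 1 ^ 3 := by
    rw [← Real.exp_nat_mul]
    norm_num
  rw [h1]
  have h2 : Real.exp 1 ^ 3 ≤ (2.7182818286 : ℝ) ^ 3 :=
    pow_le_pow_left₀ (Real.exp_pos 1).le h.le 3
  have h3 : (2.7182818286 : ℝ) ^ 3 ≤ 20.25 := by norm_num
  linarith

theorem rand_bound {D m : ℕ} (hmD : m ≤ D) (hD : D ≤ p) (hm : 3 * (p : ℝ) ^ (2 / 3 : ℝ) ≤ m) :
    ((Bad p D m).card : ℝ) ≤ (3 / 4 : ℝ) ^ (3 * (p : ℝ) ^ (2 / 3 : ℝ)) * (p : ℝ) ^ D := by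
  have hp : 0 < p := (Fact.out : p.Prime).pos
  have hp' : (0 : ℝ) < p := by exact_mod_cast hp
  have hm0 : (0 : ℝ) < m := lt_of_lt_of_le (by positivity) hm
  have hcube : 27 * (p : ℝ) ^ 2 ≤ (m : ℝ) ^ 3 := by
    have h1 : (3 * (p : ℝ) ^ (2 / 3 : ℝ)) ^ 3 ≤ (m : ℝ) ^ 3 :=
      pow_le_pow_left₀ (by positivity) hm 3
    have h2 : (3 * (p : ℝ) ^ (2 / 3 : ℝ)) ^ 3 = 27 * (p : ℝ) ^ 2 := by
      rw [mul_pow, ← Real.rpow_natCast ((p : ℝ) ^ (2 / 3 : ℝ)) 3, ← Real.rpow_mul hp'.le]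
      norm_num
    linarith
  have h1 : ((Bad p D m).card : ℝ) ≤ (p.choose m : ℝ) ^ 3 * (p : ℝ) ^ (D - m) := by
    exact_mod_cast card_Bad_le hmD hD
  have hf : (0 : ℝ) < (m.factorial : ℝ) := by exact_mod_cast Nat.factorial_pos m
  have h2 : (p.choose m : ℝ) ≤ (p : ℝ) ^ m / m.factorial := Nat.choose_le_pow_div m p
  have h3 : (m : ℝ) ^ m / m.factorial ≤ Real.exp m := Real.pow_div_factorial_le_exp m hm0.le m
  have h4 : (1 : ℝ) / m.factorial ≤ Real.exp m / (m : ℝ) ^ m := by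
    rw [le_div_iff₀ (by positivity)]
    calc 1 / (m.factorial : ℝ) * (m : ℝ) ^ m = (m : ℝ) ^ m / m.factorial := by ring
      _ ≤ _ := h3
  have h5 : (p.choose m : ℝ) ≤ (p : ℝ) ^ m * (Real.exp m / (m : ℝ) ^ m) := by
    refine h2.trans ?_
    rw [div_eq_mul_one_div]
    exact mul_le_mul_of_nonneg_left h4 (by positivity)
  have h6 : (p.choose m : ℝ) ^ 3 * (p : ℝ) ^ (D - m) ≤
      ((p : ℝ) ^ m * (Real.exp m / (m : ℝ) ^ m)) ^ 3 * (p : ℝ) ^ (D - m) :=
    mul_le_mul_of_nonneg_right (pow_le_pow_left₀ (by positivity) h5 3) (by positivity)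
  have h7 : ((p : ℝ) ^ m * (Real.exp m / (m : ℝ) ^ m)) ^ 3 * (p : ℝ) ^ (D - m) =
      ((p : ℝ) ^ 2 * Real.exp 3 / (m : ℝ) ^ 3) ^ m * (p : ℝ) ^ D := by
    have e1 : (p : ℝ) ^ D = (p : ℝ) ^ m * (p : ℝ) ^ (D - m) := by
      rw [← pow_add]
      congr 1
      omega
    have e2 : Real.exp 3 ^ m = Real.exp m ^ 3 := by
      rw [← Real.exp_nat_mul, ← Real.exp_nat_mul]
      congr 1
      push_cast
      ring
    rw [e1, div_pow, mul_pow ((p : ℝ) ^ 2), e2, mul_pow, div_pow]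
    have e3 : ((p : ℝ) ^ 2) ^ m = ((p : ℝ) ^ m) ^ 2 := by
      rw [← pow_mul, ← pow_mul, mul_comm]
    have e4 : ((m : ℝ) ^ 3) ^ m = ((m : ℝ) ^ m) ^ 3 := by
      rw [← pow_mul, ← pow_mul, mul_comm]
    rw [e3, e4]
    field_simp
  have h8 : ((p : ℝ) ^ 2 * Real.exp 3 / (m : ℝ) ^ 3) ≤ 3 / 4 := by
    have e1 : ((p : ℝ) ^ 2 * Real.exp 3 / (m : ℝ) ^ 3) ≤
        (p : ℝ) ^ 2 * Real.exp 3 / (27 * (p : ℝ) ^ 2) :=
      div_le_div_of_nonneg_left (by positivity) (by positivity) hcube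
    have e2 : (p : ℝ) ^ 2 * Real.exp 3 / (27 * (p : ℝ) ^ 2) = Real.exp 3 / 27 := by
      field_simp
    rw [e2] at e1
    exact e1.trans exp_three
  have h9 : ((p : ℝ) ^ 2 * Real.exp 3 / (m : ℝ) ^ 3) ^ m ≤
      (3 / 4 : ℝ) ^ (3 * (p : ℝ) ^ (2 / 3 : ℝ)) := by
    refine (pow_le_pow_left₀ (by positivity) h8 m).trans ?_
    rw [← Real.rpow_natCast (3 / 4 : ℝ) m]
    exact Real.rpow_le_rpow_of_exponent_ge (by norm_num) (by norm_num) hm
  refine h1.trans (h6.trans ?_)
  rw [h7]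
  exact mul_le_mul_of_nonneg_right h9 (by positivity)

/-- Few polynomials of degree less than `D` have a pattern free set with at least
`3 p ^ (2 / 3)` elements. -/
theorem rand_main {D : ℕ} (hD0 : 3 * (p : ℝ) ^ (2 / 3 : ℝ) ≤ D) (hD : D ≤ p) :
    (({P : Polynomial (ZMod p) | P.degree < D ∧ ∃ A : Finset (ZMod p),
      3 * (p : ℝ) ^ (2 / 3 : ℝ) ≤ (A.card : ℝ) ∧
      ∀ x ∈ A, ∀ y ∈ A, x ≠ y → y + P.eval x - P.eval y ∉ A} :
        Set (Polynomial (ZMod p))).ncard : ℝ) ≤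
    (3 / 4 : ℝ) ^ (3 * (p : ℝ) ^ (2 / 3 : ℝ)) * (p : ℝ) ^ D := by
  classical
  refine le_trans ?_ (rand_bound (m := ⌈3 * (p : ℝ) ^ (2 / 3 : ℝ)⌉₊) (Nat.ceil_le.2 hD0) hD
    (Nat.le_ceil _))
  rw [ncard_pol D (fun P : Polynomial (ZMod p) => ∃ A : Finset (ZMod p),
      3 * (p : ℝ) ^ (2 / 3 : ℝ) ≤ (A.card : ℝ) ∧
      ∀ x ∈ A, ∀ y ∈ A, x ≠ y → y + P.eval x - P.eval y ∉ A)]
  have h1 : univ.filter (fun c : Fin D → ZMod p => ∃ A : Finset (ZMod p),
      3 * (p : ℝ) ^ (2 / 3 : ℝ) ≤ (A.card : ℝ) ∧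
      ∀ x ∈ A, ∀ y ∈ A, x ≠ y → y + (pol D c).eval x - (pol D c).eval y ∉ A) ⊆
      Bad p D ⌈3 * (p : ℝ) ^ (2 / 3 : ℝ)⌉₊ := by
    intro c hc
    obtain ⟨_, A, hA, hfree⟩ := mem_filter.1 hc
    obtain ⟨A', hA', hcard⟩ := exists_subset_card_eq (Nat.ceil_le.2 hA)
    unfold Bad
    rw [mem_filter]
    exact ⟨mem_univ _, A', hcard, Free.subset hfree hA'⟩
  exact_mod_cast card_le_card h1

end Pool.Agent.H12.TT
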