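import Pool.Agent.H12.TT.Avg
import Pool.Agent.H12.TT.Rand
import Pool.Agent.H12.TT.Mean

/-!
# The lower bounds
-/

set_option autoImplicit false

open Polynomial Finset

namespace Pool.Agent.H12.TT

/-- The side of the boxes. -/
noncomputable def side (p : ℕ) : ℕ := ⌊(p : ℝ) ^ (2 / 3 : ℝ)⌋₊

theorem side_spec {p : ℕ} (hp : 12500 < p) : 1 ≤ side p ∧ 4 * side p ≤ p ∧ side p ^ 3 ≤ p ^ 2 ∧
    (p : ℝ) ^ (2 / 3 : ℝ) ≤ 2 * side p := by
  have hp12 : (12500 : ℝ) < p := by exact_mod_cast hp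
  have hp0 : (0 : ℝ) < p := by linarith
  unfold side
  set t : ℝ := (p : ℝ) ^ (2 / 3 : ℝ) with ht
  have ht0 : 0 < t := Real.rpow_pos_of_pos hp0 _
  have ht3 : t ^ 3 = (p : ℝ) ^ 2 := by
    rw [ht, ← Real.rpow_natCast ((p : ℝ) ^ (2 / 3 : ℝ)) 3, ← Real.rpow_mul hp0.le]
    norm_num
  set l : ℕ := ⌊t⌋₊ with hl
  have hlt : (l : ℝ) ≤ t := Nat.floor_le ht0.le
  have hlt2 : t < l + 1 := Nat.lt_floor_add_one t
  have ht500 : 500 < t := by
    by_contra h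
    push Not at h
    have : t ^ 3 ≤ 500 ^ 3 := pow_le_pow_left₀ ht0.le h 3
    rw [ht3] at this
    nlinarith
  have hl1 : 1 ≤ l := by
    have : (0 : ℝ) < l := by linarith
    exact_mod_cast this
  have hl3 : (l : ℝ) ^ 3 ≤ (p : ℝ) ^ 2 := by
    rw [← ht3]
    exact pow_le_pow_left₀ (by positivity) hlt 3
  have htp : 8 * t ≤ p := by
    by_contra h
    push Not at h
    have h1 : (p : ℝ) ^ 3 < (8 * t) ^ 3 := pow_lt_pow_left₀ h hp0.le (by norm_num)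
    rw [mul_pow, ht3] at h1
    nlinarith [sq_nonneg (p : ℝ), mul_pos hp0 hp0]
  refine ⟨hl1, ?_, ?_, by linarith⟩
  · have : (4 * l : ℝ) ≤ p := by linarith
    exact_mod_cast this
  · exact_mod_cast hl3

theorem from_TS (p : ℕ) [Fact p.Prime] (P : (ZMod p)[X]) {K : ℕ} (hK : 0 < K)
    (hTS : 12500 < p → (TS P (side p)).card ≤ K * p ^ 2) :
    ∃ A : Finset (ZMod p), (p : ℝ) ^ (2 / 3 : ℝ) * Real.exp (-4 * Real.sqrt (Real.log p)) /
      (64 * (8 * K + 1)) ≤ (A.card : ℝ) ∧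
      ∀ x ∈ A, ∀ y ∈ A, x ≠ y → y + P.eval x - P.eval y ∉ A := by
  have hp : p.Prime := Fact.out
  have hK1 : (1 : ℝ) ≤ K := by exact_mod_cast hK
  have hp1 : (1 : ℝ) ≤ p := by exact_mod_cast hp.one_lt.le
  have hp0 : (0 : ℝ) < p := by linarith
  set w : ℝ := Real.exp (-4 * Real.sqrt (Real.log p)) with hw
  have hw0 : 0 < w := Real.exp_pos _
  have hw1 : w ≤ 1 := by
    rw [hw]
    apply Real.exp_le_one_iff.2
    have := Real.sqrt_nonneg (Real.log p)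
    linarith
  set t : ℝ := (p : ℝ) ^ (2 / 3 : ℝ) with ht
  have ht0 : 0 < t := Real.rpow_pos_of_pos hp0 _
  have ht3 : t ^ 3 = (p : ℝ) ^ 2 := by
    rw [ht, ← Real.rpow_natCast ((p : ℝ) ^ (2 / 3 : ℝ)) 3, ← Real.rpow_mul hp0.le]
    norm_num
  rcases le_or_gt p 12500 with hsmall | hbig
  · refine ⟨{0}, ?_, ?_⟩
    · rw [card_singleton, Nat.cast_one, div_le_one (by positivity)]
      have h2 : (p : ℝ) ≤ 12500 := by exact_mod_cast hsmall
      have h1 : t ≤ 576 := by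
        by_contra h
        push Not at h
        have : (576 : ℝ) ^ 3 ≤ t ^ 3 := pow_le_pow_left₀ (by norm_num) h.le 3
        rw [ht3] at this
        nlinarith
      have h3 : t * w ≤ t * 1 := mul_le_mul_of_nonneg_left hw1 ht0.le
      nlinarith
    · intro x hx y hy hxy
      rw [mem_singleton] at hx hy
      exact absurd (hx.trans hy.symm) hxy
  have hTS' := hTS hbig
  obtain ⟨hl1, hlp4, hl3, hl2⟩ := side_spec hbig
  rw [← ht] at hl2
  generalize side p = l at hTS' hl1 hlp4 hl3 hl2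
  have hl0 : (0 : ℝ) < l := by exact_mod_cast hl1
  -- the number of the boxes
  set N : ℕ := p / (4 * l) with hN
  have hN1 : 4 * l * N ≤ p := Nat.mul_div_le p (4 * l)
  have hN2 : p < 4 * l * (N + 1) := by
    have := Nat.lt_mul_div_succ p (show 0 < 4 * l by omega)
    simpa using this
  have hN3 : 1 ≤ N := (Nat.one_le_div_iff (by omega)).2 hlp4
  have hN4 : (p : ℝ) ≤ 8 * l * N := by
    have h1 : (p : ℝ) < 4 * l * (N + 1) := by exact_mod_cast hN2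
    have h2 : (1 : ℝ) ≤ N := by exact_mod_cast hN3
    nlinarith
  have hNp : N ≤ p := Nat.div_le_self _ _
  obtain ⟨B, hB, hBc, hBA⟩ := rothNumberNat_spec N
  have hBN : (N : ℝ) * w ≤ B.card := by
    rw [hBc]
    refine le_trans ?_ Behrend.roth_lower_bound
    refine mul_le_mul_of_nonneg_left ?_ (by positivity)
    rw [hw]
    apply Real.exp_le_exp.2
    have h1 : Real.log N ≤ Real.log p :=
      Real.log_le_log (by exact_mod_cast hN3) (by exact_mod_cast hNp)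
    have h2 := Real.sqrt_le_sqrt h1
    linarith
  obtain ⟨A, hA1, hA2⟩ := exists_free hB hN1 hBA P hK hTS'
  refine ⟨A, ?_, hA2⟩
  have hA1' : (B.card : ℝ) * (l : ℝ) ^ 2 ≤ 4 * p * (8 * K + 1) * A.card := by
    exact_mod_cast hA1
  have h2 : (N : ℝ) * w * (l : ℝ) ^ 2 ≤ 4 * p * (8 * K + 1) * A.card :=
    (mul_le_mul_of_nonneg_right hBN (by positivity)).trans hA1'
  have h3 : (p : ℝ) * (w * l) ≤ 8 * (N * w * (l : ℝ) ^ 2) := by
    have : (p : ℝ) * (w * l) ≤ 8 * l * N * (w * l) :=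
      mul_le_mul_of_nonneg_right hN4 (by positivity)
    calc (p : ℝ) * (w * l) ≤ 8 * l * N * (w * l) := this
      _ = _ := by ring
  have h4 : (p : ℝ) * (w * l) ≤ p * (32 * (8 * K + 1) * A.card) := by
    calc (p : ℝ) * (w * l) ≤ 8 * (N * w * (l : ℝ) ^ 2) := h3
      _ ≤ 8 * (4 * p * (8 * K + 1) * A.card) := by linarith
      _ = _ := by ring
  have h5 : w * l ≤ 32 * (8 * K + 1) * A.card := le_of_mul_le_mul_left h4 hp0
  rw [div_le_iff₀ (by positivity)]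
  have h7 : t * w ≤ 2 * l * w := mul_le_mul_of_nonneg_right hl2 hw0.le
  linarith

theorem explicit (p : ℕ) (hp : p.Prime) (P : (ZMod p)[X]) (hP : 2 ≤ P.natDegree) :
    ∃ A : Finset (ZMod p), (p : ℝ) ^ (2 / 3 : ℝ) * Real.exp (-4 * Real.sqrt (Real.log p)) /
      (12500 * (P.natDegree : ℝ) ^ 2) ≤ (A.card : ℝ) ∧
      ∀ x ∈ A, ∀ y ∈ A, x ≠ y → y + P.eval x - P.eval y ∉ A := by
  have : Fact p.Prime := ⟨hp⟩
  obtain ⟨A, hA1, hA2⟩ := from_TS p P (show 0 < 64 + 8 * P.natDegree ^ 2 by omega) (by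
    intro hbig
    obtain ⟨hl1, hlp4, hl3, _⟩ := side_spec hbig
    have h1 := card_TS hP hl1 (show 2 * side p ≤ p by omega)
    have hl3' : ((side p : ℕ) : ℝ) ^ 3 ≤ (p : ℝ) ^ 2 := by exact_mod_cast hl3
    have h2 : ((TS P (side p)).card : ℝ) ≤ (64 + 8 * (P.natDegree : ℝ) ^ 2) * (p : ℝ) ^ 2 := by
      refine h1.trans ?_
      nlinarith
    exact_mod_cast h2)
  refine ⟨A, le_trans ?_ hA1, hA2⟩
  have hd2 : (2 : ℝ) ≤ P.natDegree := by exact_mod_cast hP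
  refine div_le_div_of_nonneg_left (by positivity) (by positivity) ?_
  push_cast
  nlinarith

theorem integer_version (P : Polynomial ℤ) (hP : 2 ≤ P.natDegree) (p : ℕ) (hp : p.Prime)
    (hlc0 : ¬ (p : ℤ) ∣ P.leadingCoeff) :
    ∃ A : Finset (ZMod p),
      (p : ℝ) ^ (2 / 3 : ℝ) * Real.exp (-4 * Real.sqrt (Real.log p)) /
        (12500 * (P.natDegree : ℝ) ^ 2) ≤ (A.card : ℝ) ∧
      ∀ x ∈ A, ∀ y ∈ A, x ≠ y →
        y + Polynomial.eval x (Polynomial.map (Int.castRingHom (ZMod p)) P)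
          - Polynomial.eval y (Polynomial.map (Int.castRingHom (ZMod p)) P) ∉ A := by
  have hlc : (Int.castRingHom (ZMod p)) P.leadingCoeff ≠ 0 := by
    intro h
    rw [eq_intCast, ZMod.intCast_zmod_eq_zero_iff_dvd] at h
    exact hlc0 h
  have hdeg : (P.map (Int.castRingHom (ZMod p))).natDegree = P.natDegree :=
    natDegree_map_of_leadingCoeff_ne_zero _ hlc
  obtain ⟨A, hA1, hA2⟩ := explicit p hp (P.map (Int.castRingHom (ZMod p))) (by rw [hdeg]; exact hP)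
  rw [hdeg] at hA1
  exact ⟨A, hA1, hA2⟩

/-- Most polynomials of degree less than `D` have a large pattern free set. -/
theorem typical_lower (p : ℕ) (hp : p.Prime) (D : ℕ) (hD0 : 3 ≤ D) (hD : D ≤ p) (s : ℝ)
    (hs : 1 ≤ s) :
    (({P : Polynomial (ZMod p) | P.degree < D ∧ ¬ ∃ A : Finset (ZMod p),
      (p : ℝ) ^ (2 / 3 : ℝ) * Real.exp (-4 * Real.sqrt (Real.log p)) / (7000 * s) ≤
        (A.card : ℝ) ∧ ∀ x ∈ A, ∀ y ∈ A, x ≠ y → y + P.eval x - P.eval y ∉ A} :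
          Set (Polynomial (ZMod p))).ncard : ℝ) ≤ (p : ℝ) ^ D / s := by
  classical
  have : Fact p.Prime := ⟨hp⟩
  have hp0 : (0 : ℝ) < p := by exact_mod_cast hp.pos
  have hs0 : 0 < s := by linarith
  obtain ⟨E, hE, hcard⟩ := ncard_pol' D (fun P : Polynomial (ZMod p) => ¬ ∃ A : Finset (ZMod p),
      (p : ℝ) ^ (2 / 3 : ℝ) * Real.exp (-4 * Real.sqrt (Real.log p)) / (7000 * s) ≤
        (A.card : ℝ) ∧ ∀ x ∈ A, ∀ y ∈ A, x ≠ y → y + P.eval x - P.eval y ∉ A)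
  rw [hcard]
  have hK0 : 0 < ⌈12 * s⌉₊ := Nat.ceil_pos.2 (by linarith)
  have hK1 : ((⌈12 * s⌉₊ : ℕ) : ℝ) ≤ 13 * s := by
    have := Nat.ceil_lt_add_one (show 0 ≤ 12 * s by linarith)
    linarith
  have key : ∀ c ∈ E, 12500 < p ∧ 12 * s * (p : ℝ) ^ 2 ≤ ((TS (pol D c) (side p)).card : ℝ) := by
    intro c hc
    have h1 := (hE c).1 hc
    by_contra hcon
    apply h1
    obtain ⟨A, hA1, hA2⟩ := from_TS p (pol D c) hK0 (by
      intro hbig
      have h2 : ((TS (pol D c) (side p)).card : ℝ) ≤ 12 * s * (p : ℝ) ^ 2 := by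
        by_contra h3
        exact hcon ⟨hbig, (not_le.1 h3).le⟩
      have h3 : 12 * s * (p : ℝ) ^ 2 ≤ (⌈12 * s⌉₊ : ℕ) * (p : ℝ) ^ 2 :=
        mul_le_mul_of_nonneg_right (Nat.le_ceil _) (by positivity)
      exact_mod_cast h2.trans h3)
    refine ⟨A, le_trans ?_ hA1, hA2⟩
    refine div_le_div_of_nonneg_left (by positivity) (by positivity) ?_
    linarith
  rcases E.eq_empty_or_nonempty with h0 | ⟨c0, hc0⟩
  · rw [h0, card_empty]
    push_cast
    positivity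
  · obtain ⟨hl1, hlp4, hl3, _⟩ := side_spec (key c0 hc0).1
    have h1 := sum_TS hD0 hD (show 2 * side p ≤ p by omega) hl3
    have h2 : ((∑ f : Fin D → ZMod p, (TS (pol D f) (side p)).card : ℕ) : ℝ) ≤
        12 * (p : ℝ) ^ 2 * (p : ℝ) ^ D := by
      exact_mod_cast h1
    push_cast at h2
    have h3 : (E.card : ℝ) * (12 * s * (p : ℝ) ^ 2) ≤
        ∑ f : Fin D → ZMod p, ((TS (pol D f) (side p)).card : ℝ) := by
      rw [← nsmul_eq_mul, ← sum_const]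
      refine (sum_le_sum fun c hc => (key c hc).2).trans ?_
      exact sum_le_sum_of_subset_of_nonneg (subset_univ _) fun _ _ _ => by positivity
    rw [le_div_iff₀ hs0]
    have h4 : (12 * (p : ℝ) ^ 2) * ((E.card : ℝ) * s) ≤ (12 * (p : ℝ) ^ 2) * (p : ℝ) ^ D := by
      calc (12 * (p : ℝ) ^ 2) * ((E.card : ℝ) * s) = (E.card : ℝ) * (12 * s * (p : ℝ) ^ 2) := by
            ring
        _ ≤ _ := h3.trans h2
    exact le_of_mul_le_mul_left h4 (by positivity)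

theorem typical (p : ℕ) (hp : p.Prime) (D : ℕ) (hD0 : 3 * (p : ℝ) ^ (2 / 3 : ℝ) ≤ D)
    (hD : D ≤ p) :
    (({P : Polynomial (ZMod p) | P.degree < D ∧ ∃ A : Finset (ZMod p),
      3 * (p : ℝ) ^ (2 / 3 : ℝ) ≤ (A.card : ℝ) ∧
      ∀ x ∈ A, ∀ y ∈ A, x ≠ y → y + P.eval x - P.eval y ∉ A} :
        Set (Polynomial (ZMod p))).ncard : ℝ) ≤
      (3 / 4 : ℝ) ^ (3 * (p : ℝ) ^ (2 / 3 : ℝ)) * (p : ℝ) ^ D ∧
    ∀ s : ℝ, 1 ≤ s →
      (({P : Polynomial (ZMod p) | P.degree < D ∧ ¬ ∃ A : Finset (ZMod p),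
        (p : ℝ) ^ (2 / 3 : ℝ) * Real.exp (-4 * Real.sqrt (Real.log p)) / (7000 * s) ≤
          (A.card : ℝ) ∧ ∀ x ∈ A, ∀ y ∈ A, x ≠ y → y + P.eval x - P.eval y ∉ A} :
          Set (Polynomial (ZMod p))).ncard : ℝ) ≤ (p : ℝ) ^ D / s := by
  have : Fact p.Prime := ⟨hp⟩
  refine ⟨rand_main hD0 hD, fun s hs => typical_lower p hp D ?_ hD s hs⟩
  have hp1 : (1 : ℝ) ≤ p := by exact_mod_cast hp.one_lt.le
  have h1 : (1 : ℝ) ≤ (p : ℝ) ^ (2 / 3 : ℝ) := Real.one_le_rpow hp1 (by norm_num)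
  have h2 : (3 : ℝ) ≤ D := by linarith
  exact_mod_cast h2

end Pool.Agent.H12.TT
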